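import Mathlib
import Pool.Agent.R485.Mult.Moment

/-!
# Exponential sums over the fractions with prime denominators (helper30)
-/

set_option autoImplicit false

namespace Pool.Agent.W5h30.RM

open Finset
open Pool.Agent.H469R2.NK (e norm_e e_add e_zero conj_e)

/-- the primes up to `P` -/
def Pr (P : ℕ) : Finset ℕ := (range (P + 1)).filter Nat.Prime

lemma mem_Pr {P p : ℕ} : p ∈ Pr P ↔ p.Prime ∧ p ≤ P := by
  unfold Pr
  rw [mem_filter, mem_range, Nat.lt_succ_iff, and_comm]

/-- the weight -/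
noncomputable def w (j : ℤ) : ℝ := if j = 0 then 1 else 8 / |(j : ℝ)|

lemma w_nonneg (j : ℤ) : 0 ≤ w j := by
  unfold w
  split_ifs <;> positivity

/-- the sum over the numerators -/
lemma inner (p : ℕ) (hp : 2 ≤ p) (t j : ℤ) (θ : ℝ) (hθ : |θ - t| ≤ 1 / 2) (hj : 2 * |j| ≤ p)
    (hd : (p : ℤ) ∣ t - j) : ‖∑ a ∈ Ico 1 p, e (a * θ / p)‖ ≤ p * w j := by
  have hpR : (2 : ℝ) ≤ p := by exact_mod_cast hp
  have hp0 : (0 : ℝ) < p := by linarith
  unfold w
  split_ifs with h0
  · refine (norm_sum_le _ _).trans ?_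
    rw [sum_congr rfl fun m _ => norm_e _, sum_const, Nat.card_Ico, nsmul_eq_mul, mul_one, mul_one]
    exact_mod_cast (by omega : p - 1 ≤ p)
  · have hj1 : (1 : ℝ) ≤ |(j : ℝ)| := by
      have : (1 : ℤ) ≤ |j| := Int.one_le_abs h0
      exact_mod_cast this
    have hj2 : 2 * |(j : ℝ)| ≤ p := by exact_mod_cast hj
    obtain ⟨q, hq⟩ := hd
    have hsum : ∑ a ∈ Ico 1 p, e (a * θ / p) =
        ∑ m ∈ range (p - 1), e (0 + (((1 : ℤ) : ℝ) + m) * (θ / p)) := by
      rw [sum_Ico_eq_sum_range]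
      refine sum_congr rfl fun m _ => ?_
      congr 1
      push_cast
      ring
    rw [hsum]
    have h1 : ∀ n : ℤ, |(j : ℝ)| / (4 * p) < |θ / p - n| := by
      intro n
      have e1 : θ / p - n = ((j + (θ - t)) + p * ((q - n : ℤ) : ℝ)) / p := by
        have h2 : (t : ℝ) - j = p * q := by exact_mod_cast hq
        push_cast
        field_simp
        linarith
      rw [e1, abs_div, abs_of_pos hp0, div_lt_div_iff₀ (by positivity) hp0]
      have h3 : |(j : ℝ) + (θ - t)| ≤ |(j : ℝ)| + 1 / 2 := (abs_add_le _ _).trans (by linarith)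
      by_cases hl : q - n = 0
      · rw [hl, Int.cast_zero, mul_zero, add_zero]
        have h4 : |(j : ℝ)| - 1 / 2 ≤ |(j : ℝ) + (θ - t)| := by
          have := abs_sub_abs_le_abs_sub (j : ℝ) (-(θ - t))
          rw [abs_neg, sub_neg_eq_add] at this
          linarith
        nlinarith
      · have h5 : (1 : ℝ) ≤ |((q - n : ℤ) : ℝ)| := by
          have : (1 : ℤ) ≤ |q - n| := Int.one_le_abs hl
          exact_mod_cast this
        have h6 : (p : ℝ) ≤ |(p : ℝ) * ((q - n : ℤ) : ℝ)| := by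
          rw [abs_mul, abs_of_pos hp0]
          nlinarith
        have h7 : |(p : ℝ) * ((q - n : ℤ) : ℝ)| - |(j : ℝ) + (θ - t)| ≤
            |(j : ℝ) + (θ - t) + (p : ℝ) * ((q - n : ℤ) : ℝ)| := by
          have := abs_sub_abs_le_abs_sub ((p : ℝ) * ((q - n : ℤ) : ℝ)) (-((j : ℝ) + (θ - t)))
          rw [abs_neg, sub_neg_eq_add] at this
          rw [add_comm ((j : ℝ) + (θ - t))]
          exact this
        have h8 : (p : ℝ) / 2 - 1 / 2 ≤ |(j : ℝ) + (θ - t) + (p : ℝ) * ((q - n : ℤ) : ℝ)| := by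
          linarith
        nlinarith
    refine (Pool.Agent.R485.Mult.geom (θ / p) (|(j : ℝ)| / (4 * p)) (by positivity) h1 0 1
      (p - 1)).trans (le_of_eq ?_)
    have : |(j : ℝ)| ≠ 0 := by positivity
    field_simp
    ring

/-- the number of prime divisors -/
lemma card_dvd (P : ℕ) (n : ℤ) (hn : n ≠ 0) {X : ℝ} (hX : |(n : ℝ)| ≤ X) :
    (((Pr P).filter (fun p : ℕ => (p : ℤ) ∣ n)).card : ℝ) ≤ Real.log X / Real.log 2 := by
  have hn1 : (1 : ℝ) ≤ |(n : ℝ)| := by
    have : (1 : ℤ) ≤ |n| := Int.one_le_abs hn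
    exact_mod_cast this
  have h2 : 0 < Real.log 2 := Real.log_pos (by norm_num)
  set m := n.natAbs with hm
  have hm0 : m ≠ 0 := Int.natAbs_ne_zero.2 hn
  have hsub : (Pr P).filter (fun p : ℕ => (p : ℤ) ∣ n) ⊆ m.primeFactors := by
    intro p hp
    rw [mem_filter, mem_Pr] at hp
    rw [Nat.mem_primeFactors]
    exact ⟨hp.1.1, Int.natCast_dvd.1 hp.2, hm0⟩
  have h3 : 2 ^ m.primeFactors.card ≤ m := by
    calc 2 ^ m.primeFactors.card ≤ ∏ p ∈ m.primeFactors, p :=
          Finset.pow_card_le_prod _ _ _ fun p hp => (Nat.prime_of_mem_primeFactors hp).two_le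
      _ ≤ m := Nat.le_of_dvd (Nat.pos_of_ne_zero hm0) (Nat.prod_primeFactors_dvd m)
  have h4 : (m.primeFactors.card : ℝ) * Real.log 2 ≤ Real.log X := by
    rw [← Real.log_pow]
    apply Real.log_le_log (by positivity)
    refine le_trans ?_ hX
    have : (m : ℝ) = |(n : ℝ)| := by
      rw [hm, Nat.cast_natAbs, Int.cast_abs]
    rw [← this]
    exact_mod_cast h3
  rw [le_div_iff₀ h2]
  refine le_trans ?_ h4
  apply mul_le_mul_of_nonneg_right _ h2.le
  exact_mod_cast card_le_card hsub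

lemma sum_w (P : ℕ) (hP : 1 ≤ P) : ∑ j ∈ Icc (-(P : ℤ)) P, w j ≤ 17 + 16 * Real.log P := by
  have h1 : ∑ j ∈ Icc (-(P : ℤ)) P, w j ≤ 1 + 2 * ∑ j ∈ Icc 1 P, 8 / (j : ℝ) := by
    have h2 : Icc (-(P : ℤ)) P = insert 0 ((Icc 1 P).image (fun j : ℕ => (j : ℤ)) ∪
        (Icc 1 P).image (fun j : ℕ => -(j : ℤ))) := by
      ext j
      simp only [mem_Icc, mem_insert, mem_union, mem_image]
      constructor
      · intro h
        rcases lt_trichotomy j 0 with h3 | h3 | h3
        · exact Or.inr (Or.inr ⟨j.natAbs, ⟨by omega, by omega⟩, by omega⟩)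
        · exact Or.inl h3
        · exact Or.inr (Or.inl ⟨j.natAbs, ⟨by omega, by omega⟩, by omega⟩)
      · rintro (h | ⟨a, ha, rfl⟩ | ⟨a, ha, rfl⟩) <;> omega
    rw [h2, sum_insert (by
      rw [mem_union, mem_image, mem_image]
      rintro (⟨a, ha, h⟩ | ⟨a, ha, h⟩) <;> rw [mem_Icc] at ha <;> omega)]
    have h3 : w 0 = 1 := by unfold w; simp
    rw [h3]
    have h4 : ∑ j ∈ (Icc 1 P).image (fun j : ℕ => (j : ℤ)) ∪ (Icc 1 P).image (fun j : ℕ => -(j : ℤ)), w j ≤
        ∑ j ∈ (Icc 1 P).image (fun j : ℕ => (j : ℤ)), w j +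
          ∑ j ∈ (Icc 1 P).image (fun j : ℕ => -(j : ℤ)), w j := by
      rw [← sum_union_inter]
      have : 0 ≤ ∑ j ∈ (Icc 1 P).image (fun j : ℕ => (j : ℤ)) ∩
          (Icc 1 P).image (fun j : ℕ => -(j : ℤ)), w j := sum_nonneg fun j _ => w_nonneg j
      linarith
    have h5 : ∑ j ∈ (Icc 1 P).image (fun j : ℕ => (j : ℤ)), w j = ∑ j ∈ Icc 1 P, 8 / (j : ℝ) := by
      rw [sum_image (fun a _ b _ h => by exact_mod_cast h)]
      refine sum_congr rfl fun j hj => ?_
      rw [mem_Icc] at hj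
      unfold w
      rw [if_neg (by omega)]
      congr 1
      simp
    have h6 : ∑ j ∈ (Icc 1 P).image (fun j : ℕ => -(j : ℤ)), w j = ∑ j ∈ Icc 1 P, 8 / (j : ℝ) := by
      rw [sum_image (fun a _ b _ h => by simpa using h)]
      refine sum_congr rfl fun j hj => ?_
      rw [mem_Icc] at hj
      unfold w
      rw [if_neg (by omega)]
      congr 1
      simp
    rw [h5, h6] at h4
    linarith
  have hharm : ∑ h ∈ Icc 1 P, (1 : ℝ) / h ≤ 1 + Real.log P := by
    have h3 := harmonic_le_one_add_log P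
    rw [harmonic_eq_sum_Icc] at h3
    push_cast at h3
    refine le_trans (le_of_eq ?_) h3
    exact sum_congr rfl fun h _ => by rw [one_div]
  have h7 : ∑ j ∈ Icc 1 P, 8 / (j : ℝ) = 8 * ∑ h ∈ Icc 1 P, (1 : ℝ) / h := by
    rw [mul_sum]
    exact sum_congr rfl fun j _ => by ring
  rw [h7] at h1
  linarith

/-- the exponential sum over the fractions `a / p`, `p ≤ P` prime -/
theorem key (P : ℕ) (hP : 1 ≤ P) (θ : ℝ) (hθ : 1 ≤ |θ|) :
    ∑ p ∈ Pr P, ‖∑ a ∈ Ico 1 p, e (a * θ / p)‖ ≤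
      P * (17 + 16 * Real.log P) * (Real.log (|θ| + 2 * P) / Real.log 2) +
        16 / |θ| * ∑ p ∈ Pr P, (p : ℝ) := by
  classical
  have hPR : (1 : ℝ) ≤ P := by exact_mod_cast hP
  have hθ0 : 0 < |θ| := by linarith
  obtain ⟨t, ht⟩ : ∃ t : ℤ, t = round θ := ⟨_, rfl⟩
  have hδ : |θ - t| ≤ 1 / 2 := by rw [ht]; exact abs_sub_round θ
  have htl : |θ| / 2 ≤ |(t : ℝ)| := by
    have := abs_sub_abs_le_abs_sub θ (t : ℝ)
    linarith
  have htu : |(t : ℝ)| ≤ |θ| + 1 / 2 := by
    have := abs_sub_abs_le_abs_sub (t : ℝ) θ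
    rw [abs_sub_comm] at this
    linarith
  obtain ⟨J, hJ⟩ : ∃ J : ℕ → ℤ, ∀ p, J p = Int.bmod t p := ⟨_, fun _ => rfl⟩
  have hJ1 : ∀ p ∈ Pr P, 2 * |J p| ≤ p ∧ (p : ℤ) ∣ t - J p := by
    intro p hp
    rw [mem_Pr] at hp
    have hp0 : 0 < p := hp.1.pos
    have h1 := Int.bmod_le (x := t) hp0
    have h2 := Int.le_bmod (x := t) hp0
    rw [hJ]
    refine ⟨?_, ?_⟩
    · rw [show (2 : ℤ) * |Int.bmod t p| = |Int.bmod t p| * 2 by ring]
      rcases abs_cases (Int.bmod t p) with ⟨h, _⟩ | ⟨h, _⟩ <;> rw [h] <;> omega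
    · exact Int.dvd_self_sub_bmod
  have h1 : ∀ p ∈ Pr P, ‖∑ a ∈ Ico 1 p, e (a * θ / p)‖ ≤ p * w (J p) := fun p hp =>
    inner p (mem_Pr.1 hp).1.two_le t (J p) θ hδ (hJ1 p hp).1 (hJ1 p hp).2
  refine (sum_le_sum h1).trans ?_
  rw [← sum_filter_add_sum_filter_not (Pr P) (fun p => J p ≠ t)]
  apply add_le_add
  · set S := (Pr P).filter (fun p => J p ≠ t) with hS
    have hmaps : ∀ p ∈ S, J p ∈ Icc (-(P : ℤ)) P := by
      intro p hp
      rw [hS, mem_filter] at hp
      have h2 := (hJ1 p hp.1).1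
      have h3 := (mem_Pr.1 hp.1).2
      have h4 := abs_nonneg (J p)
      have h5 := abs_le.1 (show |J p| ≤ P by omega)
      exact mem_Icc.2 h5
    rw [← sum_fiberwise_of_maps_to hmaps]
    have h2 : ∀ j ∈ Icc (-(P : ℤ)) P, ∑ p ∈ S.filter (fun p => J p = j), (p : ℝ) * w (J p) ≤
        w j * (P * (Real.log (|θ| + 2 * P) / Real.log 2)) := by
      intro j hj
      by_cases hjt : j = t
      · have : S.filter (fun p => J p = j) = ∅ := by
          rw [filter_eq_empty_iff]
          intro p hp h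
          rw [hS, mem_filter] at hp
          exact hp.2 (h.trans hjt)
        rw [this, sum_empty]
        refine mul_nonneg (w_nonneg _) (mul_nonneg (by linarith) (div_nonneg (Real.log_nonneg (by linarith))
          (Real.log_nonneg (by norm_num))))
      · have h3 : ∑ p ∈ S.filter (fun p => J p = j), (p : ℝ) * w (J p) ≤
            ∑ p ∈ S.filter (fun p => J p = j), (P : ℝ) * w j := by
          refine sum_le_sum fun p hp => ?_
          rw [mem_filter, hS, mem_filter] at hp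
          rw [hp.2]
          exact mul_le_mul_of_nonneg_right (by exact_mod_cast (mem_Pr.1 hp.1.1).2) (w_nonneg _)
        rw [sum_const, nsmul_eq_mul] at h3
        refine h3.trans ?_
        have h4 : ((S.filter (fun p => J p = j)).card : ℝ) ≤
            Real.log (|θ| + 2 * P) / Real.log 2 := by
          refine le_trans ?_ (card_dvd P (t - j) (sub_ne_zero.2 (Ne.symm hjt)) (X := |θ| + 2 * P) ?_)
          · refine Nat.cast_le.2 (card_le_card ?_)
            intro p hp
            rw [mem_filter, hS, mem_filter] at hp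
            rw [mem_filter]
            refine ⟨hp.1.1, ?_⟩
            have := (hJ1 p hp.1.1).2
            rw [hp.2] at this
            exact this
          · push_cast
            have h5 : |(j : ℝ)| ≤ P := by
              rw [mem_Icc] at hj
              have : |j| ≤ P := abs_le.2 hj
              exact_mod_cast this
            have h6 := abs_sub (t : ℝ) j
            linarith
        have h5 : 0 ≤ (P : ℝ) * w j := mul_nonneg (by linarith) (w_nonneg _)
        have := mul_le_mul_of_nonneg_right h4 h5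
        linarith
    refine (sum_le_sum h2).trans ?_
    rw [← sum_mul]
    have h3 : 0 ≤ (P : ℝ) * (Real.log (|θ| + 2 * P) / Real.log 2) :=
      mul_nonneg (by linarith) (div_nonneg (Real.log_nonneg (by linarith)) (Real.log_nonneg (by norm_num)))
    have := mul_le_mul_of_nonneg_right (sum_w P hP) h3
    linarith
  · have h2 : ∀ p ∈ (Pr P).filter (fun p => ¬ J p ≠ t), (p : ℝ) * w (J p) ≤ 16 / |θ| * p := by
      intro p hp
      rw [mem_filter, not_not] at hp
      have h3 : w (J p) ≤ 16 / |θ| := by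
        unfold w
        have h4 : (t : ℝ) ≠ 0 := by
          intro h
          rw [h, abs_zero] at htl
          linarith
        rw [hp.2, if_neg (by exact_mod_cast h4), div_le_div_iff₀ (by positivity) hθ0]
        linarith
      rw [mul_comm]
      exact mul_le_mul_of_nonneg_right h3 (Nat.cast_nonneg _)
    refine (sum_le_sum h2).trans ?_
    rw [← mul_sum]
    exact mul_le_mul_of_nonneg_left (sum_le_sum_of_subset_of_nonneg (filter_subset _ _)
      fun p _ _ => Nat.cast_nonneg _) (by positivity)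

end Pool.Agent.W5h30.RM
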