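import Mathlib
import Pool.Agent.W5h30.RM.Key

/-!
# The fractions in `(0, 1)` with a prime denominator at most `P` (helper30)
-/

set_option autoImplicit false

namespace Pool.Agent.W5h30.RM

open Finset Filter Topology
open Pool.Agent.H469R2.NK (e norm_e e_add e_zero conj_e)

/-- the fractions -/
noncomputable def FS (P : ℕ) : Finset ℚ :=
  (Pr P).biUnion fun p => (Ico 1 p).image fun a : ℕ => (a : ℚ) / (p : ℚ)

lemma den_eq {p a : ℕ} (hp : p.Prime) (ha : a ∈ Ico 1 p) : ((a : ℚ) / (p : ℚ)).den = p := by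
  rw [mem_Ico] at ha
  have hc : Nat.Coprime a p := by
    rw [Nat.coprime_comm]
    exact (Nat.Prime.coprime_iff_not_dvd hp).2 fun h => by
      have := Nat.le_of_dvd (by omega) h
      omega
  have h := Rat.den_div_eq_of_coprime (a := (a : ℤ)) (b := (p : ℤ)) (by exact_mod_cast hp.pos) (by simpa using hc)
  push_cast at h
  exact_mod_cast h

lemma sum_FS {E : Type*} [AddCommMonoid E] (P : ℕ) (f : ℚ → E) :
    ∑ r ∈ FS P, f r = ∑ p ∈ Pr P, ∑ a ∈ Ico 1 p, f ((a : ℚ) / (p : ℚ)) := by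
  classical
  unfold FS
  rw [sum_biUnion]
  · refine sum_congr rfl fun p hp => ?_
    rw [sum_image]
    intro a ha b hb hab
    have hp0 : (p : ℚ) ≠ 0 := by exact_mod_cast (mem_Pr.1 hp).1.ne_zero
    simp only at hab
    rw [div_left_inj' hp0] at hab
    exact_mod_cast hab
  · intro p hp q hq hpq
    rw [Function.onFun, disjoint_left]
    intro r hr1 hr2
    rw [mem_image] at hr1 hr2
    obtain ⟨a, ha, rfl⟩ := hr1
    obtain ⟨b, hb, hab⟩ := hr2
    apply hpq
    rw [← den_eq (mem_Pr.1 hp).1 ha, ← hab, den_eq (mem_Pr.1 hq).1 hb]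

lemma mem_FS {P : ℕ} {r : ℚ} : r ∈ FS P ↔ 0 < r ∧ r < 1 ∧ r.den.Prime ∧ r.den ≤ P := by
  unfold FS
  rw [mem_biUnion]
  constructor
  · rintro ⟨p, hp, hr⟩
    rw [mem_image] at hr
    obtain ⟨a, ha, rfl⟩ := hr
    have hpp := (mem_Pr.1 hp).1
    have hd := den_eq hpp ha
    rw [mem_Ico] at ha
    have hp0 : (0 : ℚ) < p := by exact_mod_cast hpp.pos
    have ha1 : (1 : ℚ) ≤ a := by exact_mod_cast ha.1
    have ha2 : (a : ℚ) < p := by exact_mod_cast ha.2
    refine ⟨by positivity, by rw [div_lt_one hp0]; exact ha2, by rw [hd]; exact hpp, by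
      rw [hd]; exact (mem_Pr.1 hp).2⟩
  · rintro ⟨h0, h1, h2, h3⟩
    refine ⟨r.den, mem_Pr.2 ⟨h2, h3⟩, ?_⟩
    rw [mem_image]
    have hn : 0 < r.num := Rat.num_pos.2 h0
    have hn2 : r.num < r.den := Rat.num_lt_denom_iff.2 h1
    refine ⟨r.num.toNat, mem_Ico.2 ⟨by omega, by omega⟩, ?_⟩
    have : ((r.num.toNat : ℕ) : ℚ) = (r.num : ℚ) := by
      have : ((r.num.toNat : ℕ) : ℤ) = r.num := Int.toNat_of_nonneg hn.le
      exact_mod_cast this
    rw [this]
    exact Rat.num_div_den r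

lemma card_FS (P : ℕ) : (FS P).card = ∑ p ∈ Pr P, (p - 1) := by
  rw [card_eq_sum_ones, sum_FS]
  refine sum_congr rfl fun p _ => ?_
  rw [sum_const, Nat.card_Ico, smul_eq_mul, mul_one]

lemma sum_le_card (P : ℕ) : ∑ p ∈ Pr P, (p : ℝ) ≤ 2 * (FS P).card := by
  rw [card_FS]
  have : ∑ p ∈ Pr P, p ≤ 2 * ∑ p ∈ Pr P, (p - 1) := by
    rw [mul_sum]
    refine sum_le_sum fun p hp => ?_
    have := (mem_Pr.1 hp).1.two_le
    omega
  have h2 : ((∑ p ∈ Pr P, p : ℕ) : ℝ) ≤ ((2 * ∑ p ∈ Pr P, (p - 1) : ℕ) : ℝ) := Nat.cast_le.2 this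
  rw [Nat.cast_sum, Nat.cast_mul] at h2
  exact h2

lemma card_le (P : ℕ) : (FS P).card ≤ P ^ 2 := by
  rw [card_FS]
  calc ∑ p ∈ Pr P, (p - 1) ≤ ∑ p ∈ Pr P, (P - 1) := sum_le_sum fun p hp => by
        have := (mem_Pr.1 hp).2
        omega
    _ = (Pr P).card * (P - 1) := by rw [sum_const, smul_eq_mul]
    _ ≤ (P + 1) * (P - 1) := by
        apply Nat.mul_le_mul_right
        unfold Pr
        exact (card_filter_le _ _).trans (by rw [card_range])
    _ ≤ P ^ 2 := by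
        rcases P with _ | P
        · simp
        · rw [Nat.add_sub_cancel]
          nlinarith

lemma card_ge (P : ℕ) : ((Pr P).card / 2) * ((Pr P).card / 2) ≤ (FS P).card := by
  classical
  rw [card_FS]
  set m := (Pr P).card with hm
  have h1 : ((Pr P).filter (fun p => p ≤ m / 2)).card ≤ m / 2 := by
    calc ((Pr P).filter (fun p => p ≤ m / 2)).card ≤ (Icc 1 (m / 2)).card := by
          refine card_le_card fun p hp => ?_
          rw [mem_filter, mem_Pr] at hp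
          exact mem_Icc.2 ⟨hp.1.1.pos, hp.2⟩
      _ = m / 2 := by rw [Nat.card_Icc, Nat.add_sub_cancel]
  have h2 : ((Pr P).filter (fun p => p ≤ m / 2)).card + ((Pr P).filter (fun p => ¬ p ≤ m / 2)).card = m :=
    card_filter_add_card_filter_not _
  have h3 : m / 2 ≤ ((Pr P).filter (fun p => ¬ p ≤ m / 2)).card := by omega
  calc (m / 2) * (m / 2) ≤ ((Pr P).filter (fun p => ¬ p ≤ m / 2)).card * (m / 2) :=
        Nat.mul_le_mul_right _ h3
    _ = ∑ p ∈ (Pr P).filter (fun p => ¬ p ≤ m / 2), (m / 2) := by rw [sum_const, smul_eq_mul]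
    _ ≤ ∑ p ∈ (Pr P).filter (fun p => ¬ p ≤ m / 2), (p - 1) := sum_le_sum fun p hp => by
        rw [mem_filter] at hp
        omega
    _ ≤ _ := sum_le_sum_of_subset (filter_subset _ _)

lemma card_Pr (P : ℕ) : (Pr P).card = Nat.primeCounting P := by
  unfold Pr Nat.primeCounting Nat.primeCounting'
  rw [Nat.count_eq_card_filter_range]

lemma ev_pi (τ : ℝ) (hτ : 0 < τ) : ∀ᶠ P : ℕ in atTop, (P : ℝ) ^ (1 - τ) ≤ (Pr P).card := by
  have h1 : (fun u : ℝ => Real.log u) =o[atTop] (fun u : ℝ => u ^ τ) := isLittleO_log_rpow_atTop hτ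
  have h2 := (h1.comp_tendsto tendsto_natCast_atTop_atTop).bound (c := 1 / 2) (by norm_num)
  have h3 : (fun u : ℝ => Real.log u) =o[atTop] (fun u : ℝ => u ^ (1 : ℝ)) :=
    isLittleO_log_rpow_atTop one_pos
  have h4 := (h3.comp_tendsto tendsto_natCast_atTop_atTop).bound (c := 1 / 100) (by norm_num)
  filter_upwards [h2, h4, eventually_ge_atTop 100] with P h2 h4 hP
  have hPR : (100 : ℝ) ≤ P := by exact_mod_cast hP
  have hP0 : (0 : ℝ) < P := by linarith
  have hlog : 0 < Real.log P := Real.log_pos (by linarith)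
  simp only [Function.comp, Real.norm_eq_abs] at h2 h4
  rw [abs_of_pos hlog, abs_of_pos (Real.rpow_pos_of_pos hP0 _)] at h2 h4
  rw [Real.rpow_one] at h4
  have h5 := Chebyshev.pi_ge P
  rw [card_Pr]
  refine le_trans ?_ h5
  rw [le_div_iff₀ hlog]
  have h6 : Real.log ((P : ℝ) + 1) ≤ Real.log P + 1 := by
    have : Real.log ((P : ℝ) + 1) ≤ Real.log (P * Real.exp 1) := by
      apply Real.log_le_log (by linarith)
      have := Real.add_one_le_exp (1 : ℝ)
      nlinarith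
    rwa [Real.log_mul hP0.ne' (Real.exp_pos _).ne', Real.log_exp] at this
  have h7 := Real.log_two_gt_d9
  have h8 : (P : ℝ) ^ (1 - τ) * Real.log P ≤ (P : ℝ) / 2 := by
    calc (P : ℝ) ^ (1 - τ) * Real.log P ≤ (P : ℝ) ^ (1 - τ) * (1 / 2 * (P : ℝ) ^ τ) := by gcongr
      _ = 1 / 2 * ((P : ℝ) ^ (1 - τ) * (P : ℝ) ^ τ) := by ring
      _ = 1 / 2 * P := by rw [← Real.rpow_add hP0]; norm_num
      _ = P / 2 := by ring
  nlinarith

lemma ev_card (τ : ℝ) (hτ : 0 < τ) : ∀ᶠ P : ℕ in atTop, (P : ℝ) ^ (2 - τ) ≤ (FS P).card := by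
  have h1 : Tendsto (fun P : ℕ => (P : ℝ) ^ (τ / 3)) atTop atTop :=
    (tendsto_rpow_atTop (by positivity)).comp tendsto_natCast_atTop_atTop
  rcases le_or_gt 3 τ with h3 | h3
  · filter_upwards [ev_pi (1 / 2) (by norm_num), eventually_ge_atTop 100,
      (tendsto_natCast_atTop_atTop (R := ℝ)).eventually_ge_atTop 100] with P h2 hP hPR
    have hP0 : (0 : ℝ) < P := by linarith
    have h4 := card_ge P
    have h5 : (P : ℝ) ^ (2 - τ) ≤ 1 := by
      apply Real.rpow_le_one_of_one_le_of_nonpos (by linarith) (by linarith)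
    have h6 : (10 : ℝ) ≤ (P : ℝ) ^ ((1 : ℝ) - 1 / 2) := by
      calc (10 : ℝ) = ((10 : ℝ) ^ (2 : ℝ)) ^ ((1 : ℝ) / 2) := by
            rw [← Real.rpow_mul (by norm_num)]; norm_num
        _ ≤ (P : ℝ) ^ ((1 : ℝ) / 2) := by
            apply Real.rpow_le_rpow (by positivity) (by norm_num; linarith) (by norm_num)
        _ = _ := by norm_num
    have h7 : 10 ≤ (Pr P).card := by exact_mod_cast h6.trans h2
    have h8 : 1 ≤ (FS P).card := by
      refine le_trans ?_ h4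
      have : 5 ≤ (Pr P).card / 2 := by omega
      nlinarith
    refine h5.trans ?_
    exact_mod_cast h8
  · filter_upwards [ev_pi (τ / 3) (by positivity), h1.eventually_ge_atTop 16, eventually_ge_atTop 1,
      ((tendsto_rpow_atTop (by linarith : 0 < 1 - τ / 3)).comp
        tendsto_natCast_atTop_atTop).eventually_ge_atTop 4] with P h2 h4 hP h5
    have hPR : (1 : ℝ) ≤ P := by exact_mod_cast hP
    have hP0 : (0 : ℝ) < P := by linarith
    simp only [Function.comp] at h5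
    have h6 := card_ge P
    set m := (Pr P).card with hm
    have h7 : (m : ℝ) / 4 ≤ ((m / 2 : ℕ) : ℝ) := by
      have h8 : m ≤ 2 * (m / 2) + 1 := by omega
      have h9 : (m : ℝ) ≤ 2 * ((m / 2 : ℕ) : ℝ) + 1 := by exact_mod_cast h8
      linarith
    have h8 : (m : ℝ) / 4 * (m / 4) ≤ (FS P).card := by
      refine (mul_le_mul h7 h7 (by positivity) (Nat.cast_nonneg _)).trans ?_
      exact_mod_cast h6
    refine le_trans ?_ h8
    have h9 : (P : ℝ) ^ (2 - τ) * (P : ℝ) ^ (τ / 3) = (P : ℝ) ^ (1 - τ / 3) * (P : ℝ) ^ (1 - τ / 3) := by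
      rw [← Real.rpow_add hP0, ← Real.rpow_add hP0]
      congr 1
      ring
    have h10 : (P : ℝ) ^ (1 - τ / 3) * (P : ℝ) ^ (1 - τ / 3) ≤ (m : ℝ) * m :=
      mul_le_mul h2 h2 (by positivity) (by positivity)
    have h11 : (P : ℝ) ^ (2 - τ) * 16 ≤ (P : ℝ) ^ (2 - τ) * (P : ℝ) ^ (τ / 3) :=
      mul_le_mul_of_nonneg_left h4 (by positivity)
    nlinarith

/-- the exponential sums relative to the number of fractions -/
theorem rel (τ : ℝ) (hτ : 0 < τ) : ∃ P0 : ℕ, 2 ≤ P0 ∧ ∀ P : ℕ, P0 ≤ P →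
    (P : ℝ) ^ (2 - τ) ≤ (FS P).card ∧ ∀ θ : ℝ, 1 ≤ |θ| →
      ‖∑ r ∈ FS P, e (r * θ)‖ ≤
        (FS P).card * ((P : ℝ) ^ (-1 + τ) * Real.log (|θ| + 2 * P) + 32 / |θ|) := by
  have h1 : (fun u : ℝ => 17 + 16 * Real.log u) =o[atTop] (fun u : ℝ => u ^ (τ / 2)) := by
    apply Asymptotics.IsLittleO.add
    · exact Asymptotics.isLittleO_const_left.2 (Or.inr (by
        refine tendsto_norm_atTop_atTop.comp (tendsto_rpow_atTop (by positivity))))
    · exact (isLittleO_log_rpow_atTop (by positivity)).const_mul_left 16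
  have h2 := (h1.comp_tendsto tendsto_natCast_atTop_atTop).bound (c := 1 / 2) (by norm_num)
  obtain ⟨P1, hP1⟩ := eventually_atTop.1 ((ev_card (τ / 2) (by positivity)).and
    ((ev_card τ hτ).and h2))
  refine ⟨max P1 2, le_max_right _ _, fun P hP => ?_⟩
  obtain ⟨h3, h4, h5⟩ := hP1 P ((le_max_left _ _).trans hP)
  have hP2 : 2 ≤ P := (le_max_right _ _).trans hP
  have hPR : (2 : ℝ) ≤ P := by exact_mod_cast hP2
  have hP0 : (0 : ℝ) < P := by linarith
  refine ⟨h4, fun θ hθ => ?_⟩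
  have hθ0 : 0 < |θ| := by linarith
  simp only [Function.comp, Real.norm_eq_abs] at h5
  rw [abs_of_pos (Real.rpow_pos_of_pos hP0 _)] at h5
  have h6 : 17 + 16 * Real.log P ≤ 1 / 2 * (P : ℝ) ^ (τ / 2) := (le_abs_self _).trans h5
  have hlog : 0 ≤ Real.log (|θ| + 2 * P) := Real.log_nonneg (by linarith)
  have hl2 : 1 / 2 < Real.log 2 := by
    have := Real.log_two_gt_d9
    linarith
  have hkey := key P (by omega) θ hθ
  have h7 : ‖∑ r ∈ FS P, e (r * θ)‖ ≤ ∑ p ∈ Pr P, ‖∑ a ∈ Ico 1 p, e (a * θ / p)‖ := by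
    rw [sum_FS]
    refine (norm_sum_le _ _).trans (sum_le_sum fun p _ => le_of_eq ?_)
    congr 1
    refine sum_congr rfl fun a _ => ?_
    congr 1
    push_cast
    ring
  refine h7.trans (hkey.trans ?_)
  rw [mul_add ((FS P).card : ℝ)]
  apply add_le_add
  · have h8 : Real.log (|θ| + 2 * P) / Real.log 2 ≤ 2 * Real.log (|θ| + 2 * P) := by
      rw [div_le_iff₀ (by linarith)]
      nlinarith
    have h9 : (P : ℝ) * (P : ℝ) ^ (τ / 2) = (P : ℝ) ^ (2 - τ / 2) * (P : ℝ) ^ (-1 + τ) := by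
      nth_rw 1 [← Real.rpow_one (P : ℝ)]
      rw [← Real.rpow_add hP0, ← Real.rpow_add hP0]
      congr 1
      ring
    calc (P : ℝ) * (17 + 16 * Real.log P) * (Real.log (|θ| + 2 * P) / Real.log 2) ≤
          (P : ℝ) * (1 / 2 * (P : ℝ) ^ (τ / 2)) * (2 * Real.log (|θ| + 2 * P)) := by
          apply mul_le_mul _ h8 (div_nonneg hlog (by linarith)) (by positivity)
          exact mul_le_mul_of_nonneg_left h6 hP0.le
      _ = (P : ℝ) * (P : ℝ) ^ (τ / 2) * Real.log (|θ| + 2 * P) := by ring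
      _ = (P : ℝ) ^ (2 - τ / 2) * ((P : ℝ) ^ (-1 + τ) * Real.log (|θ| + 2 * P)) := by
          rw [h9]; ring
      _ ≤ _ := mul_le_mul_of_nonneg_right h3 (mul_nonneg (by positivity) hlog)
  · have h8 := sum_le_card P
    have h9 : 16 / |θ| * ∑ p ∈ Pr P, (p : ℝ) ≤ 16 / |θ| * (2 * (FS P).card) :=
      mul_le_mul_of_nonneg_left h8 (by positivity)
    refine h9.trans (le_of_eq ?_)
    ring

end Pool.Agent.W5h30.RM
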