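import Mathlib
import Pool.Agent.R485.Mult.Disc
import Pool.Agent.W5h30.RM.Fam

/-!
# Moments of exponential sums over rational multiples (helper30)
-/

set_option autoImplicit false

namespace Pool.Agent.W5h30.RM

open Finset Filter Topology
open Pool.Agent.H469R2.NK (e norm_e e_add e_zero conj_e)
open Pool.Agent.R485.Mult (sg abs_sg pow_expand count_vanish saw_bound indicator_eq dev_bound)

/-- even moments from exponential sums -/
theorem moment (F : Finset ℚ) (b : ℕ) (hb : 2 ≤ b) (s : ℕ) (hs : 1 ≤ s) (x : ℝ) (h n : ℕ)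
    (hh : 1 ≤ h) (ρ : ℝ) (hρ : 0 ≤ ρ)
    (H : ∀ T : ℤ, T ≠ 0 → |(T : ℝ)| ≤ 2 * s * h * (b : ℝ) ^ n → ‖∑ r ∈ F, e (r * (T * x))‖ ≤ ρ) :
    ∑ r ∈ F, ‖∑ i ∈ Icc 1 n, e (h * (r * x) * (b : ℝ) ^ i)‖ ^ (2 * s) ≤
      F.card * (s ^ (2 * s) * (2 * (2 * s) + 1) ^ (2 * s) * n ^ s : ℕ) + (n : ℝ) ^ (2 * s) * ρ := by
  classical
  have hbR : (1 : ℝ) ≤ b := by exact_mod_cast (by omega : 1 ≤ b)
  have hhR : (1 : ℝ) ≤ h := by exact_mod_cast hh
  set K : (Fin (2 * s) → ℕ) → ℤ := fun p => ∑ j : Fin (2 * s), sg j * (b : ℤ) ^ (p j) with hK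
  set PP := Fintype.piFinset (fun _ : Fin (2 * s) => Icc 1 n) with hPP
  have h1 : ((∑ r ∈ F, ‖∑ i ∈ Icc 1 n, e (h * (r * x) * (b : ℝ) ^ i)‖ ^ (2 * s) : ℝ) : ℂ) =
      ∑ p ∈ PP, ∑ r ∈ F, e (r * ((h * K p : ℤ) * x)) := by
    rw [Complex.ofReal_sum, sum_comm]
    refine sum_congr rfl fun m _ => ?_
    rw [pow_expand]
    refine sum_congr rfl fun p _ => ?_
    congr 1
    simp only [hK]
    push_cast
    ring
  have h2 : ∑ r ∈ F, ‖∑ i ∈ Icc 1 n, e (h * (r * x) * (b : ℝ) ^ i)‖ ^ (2 * s) =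
      ‖∑ p ∈ PP, ∑ r ∈ F, e (r * ((h * K p : ℤ) * x))‖ := by
    rw [← h1, Complex.norm_real, Real.norm_eq_abs, abs_of_nonneg]
    exact sum_nonneg fun m _ => by positivity
  rw [h2]
  have h3 : ∀ p ∈ PP, ‖∑ r ∈ F, e (r * ((h * K p : ℤ) * x))‖ ≤
      (if K p = 0 then (F.card : ℝ) else 0) + ρ := by
    intro p hp
    split_ifs with hp0
    · have : ‖∑ r ∈ F, e (r * ((h * K p : ℤ) * x))‖ ≤ F.card := by
        refine (norm_sum_le _ _).trans ?_
        rw [sum_congr rfl fun m _ => norm_e _]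
        simp
      linarith
    · rw [zero_add]
      refine H (h * K p) (mul_ne_zero (by omega) hp0) ?_
      have h4 : |((K p : ℤ) : ℝ)| ≤ 2 * s * (b : ℝ) ^ n := by
        rw [hK]
        push_cast
        refine (abs_sum_le_sum_abs _ _).trans ?_
        calc ∑ j : Fin (2 * s), |((sg j : ℤ) : ℝ) * (b : ℝ) ^ (p j)| ≤
              ∑ _j : Fin (2 * s), (b : ℝ) ^ n := by
              refine sum_le_sum fun j _ => ?_
              have h5 : |((sg (j : ℕ) : ℤ) : ℝ)| = 1 := by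
                rw [← Int.cast_abs, abs_sg]
                norm_num
              rw [abs_mul, h5, one_mul, abs_of_nonneg (by positivity)]
              refine pow_le_pow_right₀ hbR ?_
              have := (Fintype.mem_piFinset.1 hp) j
              rw [mem_Icc] at this
              exact this.2
          _ = 2 * s * (b : ℝ) ^ n := by
              rw [sum_const, card_univ, Fintype.card_fin, nsmul_eq_mul]
              push_cast
              ring
      push_cast
      rw [abs_mul, abs_of_nonneg (by positivity : (0 : ℝ) ≤ h)]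
      calc (h : ℝ) * |((K p : ℤ) : ℝ)| ≤ h * (2 * s * (b : ℝ) ^ n) := by gcongr
        _ = 2 * s * h * (b : ℝ) ^ n := by ring
  refine (norm_sum_le _ _).trans ((sum_le_sum h3).trans ?_)
  rw [sum_add_distrib, ← sum_filter, sum_const, sum_const, nsmul_eq_mul, nsmul_eq_mul]
  apply add_le_add
  · rw [mul_comm]
    apply mul_le_mul_of_nonneg_left _ (Nat.cast_nonneg _)
    exact Nat.cast_le.2 (count_vanish b hb s hs (fun j => sg j) (fun j => abs_sg j) n)
  · apply mul_le_mul_of_nonneg_right _ hρ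
    rw [hPP, Fintype.card_piFinset]
    simp only [Nat.card_Icc, Nat.add_sub_cancel, prod_const, card_univ, Fintype.card_fin]
    push_cast
    exact le_rfl

/-- Markov's inequality -/
lemma markov (F : Finset ℚ) (f : ℚ → ℝ) (hf : ∀ r, 0 ≤ f r) (k : ℕ) (T M : ℝ) (hT : 0 < T)
    (h : ∑ r ∈ F, f r ^ k ≤ M) : ((F.filter (fun r => T < f r)).card : ℝ) ≤ M / T ^ k := by
  rw [le_div_iff₀ (by positivity)]
  calc ((F.filter (fun r => T < f r)).card : ℝ) * T ^ k = ∑ r ∈ F.filter (fun r => T < f r), T ^ k := by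
        rw [sum_const, nsmul_eq_mul]
    _ ≤ ∑ r ∈ F.filter (fun r => T < f r), f r ^ k := sum_le_sum fun r hr =>
        pow_le_pow_left₀ hT.le (mem_filter.1 hr).2.le _
    _ ≤ ∑ r ∈ F, f r ^ k := sum_le_sum_of_subset_of_nonneg (filter_subset _ _) fun r _ _ =>
        pow_nonneg (hf r) _
    _ ≤ M := h

/-- the deviation is bounded by exponential sums, with a free cutoff -/
lemma dev_bound' (t : ℕ → ℝ) (n K : ℕ) (hK : 1 ≤ K) (T : ℝ)
    (hT : ∀ h : ℕ, 1 ≤ h → h ≤ K → ‖∑ i ∈ Icc 1 n, e (h * t i)‖ ≤ T) (α β : ℝ) (h0 : 0 ≤ α)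
    (h1 : α < β) (h2 : β ≤ 1) :
    |(((Icc 1 n).filter (fun i : ℕ => α ≤ Int.fract (t i) ∧ Int.fract (t i) < β)).card : ℝ) -
      (β - α) * n| ≤ 2 * (T * (1 + Real.log K) + 2 * (n / Real.sqrt K)) := by
  classical
  have hKR : (1 : ℝ) ≤ K := by exact_mod_cast hK
  have hK0 : (0 : ℝ) < K := by linarith
  have hT0 : 0 ≤ T := (norm_nonneg _).trans (hT 1 le_rfl hK)
  have hsq : (1 : ℝ) ≤ Real.sqrt K := by
    rw [show (1 : ℝ) = Real.sqrt 1 by simp]
    exact Real.sqrt_le_sqrt hKR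
  have hsq2 : Real.sqrt K * Real.sqrt K = K := Real.mul_self_sqrt hK0.le
  have hharm : ∑ h ∈ Icc 1 K, (1 : ℝ) / h ≤ 1 + Real.log K := by
    have h3 := harmonic_le_one_add_log K
    rw [harmonic_eq_sum_Icc] at h3
    push_cast at h3
    refine le_trans (le_of_eq ?_) h3
    exact sum_congr rfl fun h _ => by rw [one_div]
  have key : ∀ γ : ℝ, |∑ i ∈ Icc 1 n, (Int.fract (t i - γ) - 1 / 2)| ≤
      T * (1 + Real.log K) + 2 * (n / Real.sqrt K) := by
    intro γ
    have h3 := saw_bound (Icc 1 n) (fun i => t i - γ) K hK (1 / Real.sqrt K) (by positivity)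
      (by rw [div_le_one (by positivity)]; exact hsq)
    refine h3.trans ?_
    have h4 : ∀ h ∈ Icc 1 K, ‖∑ i ∈ Icc 1 n, e (h * (t i - γ))‖ / h ≤ T * (1 / h) := by
      intro h hh
      rw [mem_Icc] at hh
      have h5 : ∑ i ∈ Icc 1 n, e (h * (t i - γ)) = e (-(h * γ)) * ∑ i ∈ Icc 1 n, e (h * t i) := by
        rw [mul_sum]
        refine sum_congr rfl fun i _ => ?_
        rw [← e_add]
        congr 1
        ring
      rw [h5, norm_mul, norm_e, one_mul, mul_one_div]
      gcongr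
      exact hT h hh.1 hh.2
    have h6 : ∑ h ∈ Icc 1 K, ‖∑ i ∈ Icc 1 n, e (h * (t i - γ))‖ / h ≤ T * (1 + Real.log K) := by
      refine (sum_le_sum h4).trans ?_
      rw [← mul_sum]
      exact mul_le_mul_of_nonneg_left hharm hT0
    have hc : (((Icc 1 n).card : ℕ) : ℝ) = n := by
      rw [Nat.card_Icc, Nat.add_sub_cancel]
    have h7 : (((Icc 1 n).card : ℕ) : ℝ) / (K * (1 / Real.sqrt K)) = n / Real.sqrt K := by
      have : (K : ℝ) * (1 / Real.sqrt K) = Real.sqrt K := by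
        field_simp
        nlinarith
      rw [this, hc]
    have h8 : (((Icc 1 n).card : ℕ) : ℝ) * (1 / Real.sqrt K) = n / Real.sqrt K := by
      rw [hc, mul_one_div]
    rw [h7, h8]
    linarith
  have h3 : (((Icc 1 n).filter (fun i : ℕ => α ≤ Int.fract (t i) ∧ Int.fract (t i) < β)).card : ℝ) -
      (β - α) * n = ∑ i ∈ Icc 1 n, (Int.fract (t i - β) - 1 / 2) -
        ∑ i ∈ Icc 1 n, (Int.fract (t i - α) - 1 / 2) := by
    rw [← sum_sub_distrib]
    rw [← sum_congr rfl fun i _ => indicator_eq (t i) α β h0 h1 h2]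
    rw [sum_sub_distrib, sum_const, card_filter]
    push_cast
    rw [Nat.card_Icc, Nat.add_sub_cancel, nsmul_eq_mul]
    ring
  rw [h3]
  refine (abs_sub _ _).trans ?_
  linarith [key α, key β]

/-- splitting off the first terms -/
lemma split_first (z : ℝ) (b h i0 n : ℕ) {T : ℝ} (hT0 : 0 ≤ T)
    (hT : ‖∑ i ∈ Icc 1 (n - i0), e (h * (z * (b : ℝ) ^ i0) * (b : ℝ) ^ i)‖ ≤ T) :
    ‖∑ i ∈ Icc 1 n, e (h * (z * (b : ℝ) ^ i))‖ ≤ i0 + T := by
  classical
  rcases le_or_gt n i0 with h1 | h1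
  · refine (norm_sum_le _ _).trans ?_
    rw [sum_congr rfl fun m _ => norm_e _, sum_const, Nat.card_Icc, Nat.add_sub_cancel, nsmul_eq_mul,
      mul_one]
    have : (n : ℝ) ≤ i0 := by exact_mod_cast h1
    linarith
  · have h2 : Icc 1 n = Icc 1 i0 ∪ (Icc 1 (n - i0)).image (fun i => i0 + i) := by
      ext i
      simp only [mem_Icc, mem_union, mem_image]
      constructor
      · intro h
        rcases le_or_gt i i0 with h3 | h3
        · exact Or.inl ⟨h.1, h3⟩
        · exact Or.inr ⟨i - i0, ⟨by omega, by omega⟩, by omega⟩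
      · rintro (h | ⟨a, ha, rfl⟩) <;> omega
    rw [h2, sum_union, sum_image (fun a _ b _ h => by simpa using h)]
    · refine (norm_add_le _ _).trans ?_
      apply add_le_add
      · refine (norm_sum_le _ _).trans ?_
        rw [sum_congr rfl fun m _ => norm_e _, sum_const, Nat.card_Icc, Nat.add_sub_cancel,
          nsmul_eq_mul, mul_one]
      · refine le_trans (le_of_eq ?_) hT
        congr 1
        refine sum_congr rfl fun i _ => ?_
        congr 1
        rw [pow_add]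
        ring
    · rw [disjoint_left]
      intro i hi hi2
      rw [mem_Icc] at hi
      rw [mem_image] at hi2
      obtain ⟨a, ha, rfl⟩ := hi2
      rw [mem_Icc] at ha
      omega

end Pool.Agent.W5h30.RM
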