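import Mathlib
import Pool.Agent.W5h30.RM.Mom

/-!
# Square-root discrepancy of the rational multiples of a real number (helper30)
-/

set_option autoImplicit false

namespace Pool.Agent.W5h30.RM

open Finset Filter Topology
open Pool.Agent.H469R2.NK (e norm_e e_add e_zero conj_e)

/-- the deviations of the first `n ≤ N` terms of `(z b^i)` are at most `E` -/
def DU (b N : ℕ) (E z : ℝ) : Prop :=
  ∀ n : ℕ, n ≤ N → ∀ α β : ℝ, 0 ≤ α → α < β → β ≤ 1 →
    |(((Icc 1 n).filter (fun i : ℕ => α ≤ Int.fract (z * (b : ℝ) ^ i) ∧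
      Int.fract (z * (b : ℝ) ^ i) < β)).card : ℝ) - (β - α) * n| ≤ E

/-- the number of the first terms which are left out -/
def i0 (s N : ℕ) : ℕ := (s + 3) * (Nat.log 2 N + 1)

lemma pow_i0 (s N b : ℕ) (hb : 2 ≤ b) : (N : ℝ) ^ (s + 3) ≤ (b : ℝ) ^ i0 s N := by
  have h1 : N ≤ b ^ (Nat.log 2 N + 1) := by
    calc N ≤ 2 ^ (Nat.log 2 N + 1) := (Nat.lt_pow_succ_log_self (by norm_num) N).le
      _ ≤ b ^ (Nat.log 2 N + 1) := Nat.pow_le_pow_left hb _
  have h2 : N ^ (s + 3) ≤ b ^ i0 s N := by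
    unfold i0
    calc N ^ (s + 3) ≤ (b ^ (Nat.log 2 N + 1)) ^ (s + 3) := Nat.pow_le_pow_left h1 _
      _ = b ^ ((s + 3) * (Nat.log 2 N + 1)) := by rw [← pow_mul, mul_comm]
  exact_mod_cast h2

lemma i0_le (s N : ℕ) : (i0 s N : ℝ) ≤ (s + 3) * (2 * Real.log N + 1) := by
  unfold i0
  push_cast
  apply mul_le_mul_of_nonneg_left _ (by positivity)
  rcases Nat.eq_zero_or_pos N with h | h
  · subst h
    simp
  · have h1 : 2 ^ Nat.log 2 N ≤ N := Nat.pow_log_le_self 2 h.ne'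
    have h2 : (Nat.log 2 N : ℝ) * Real.log 2 ≤ Real.log N := by
      rw [← Real.log_pow]
      apply Real.log_le_log (by positivity)
      exact_mod_cast h1
    have h3 := Real.log_two_gt_d9
    have h4 : (0 : ℝ) ≤ Nat.log 2 N := Nat.cast_nonneg _
    nlinarith

lemma ev_i0 (s : ℕ) (κ : ℝ) (hκ : 0 < κ) : ∀ᶠ N : ℕ in atTop, (i0 s N : ℝ) ≤ (N : ℝ) ^ κ := by
  have h1 : (fun u : ℝ => (s + 3) * (2 * Real.log u + 1)) =o[atTop] (fun u : ℝ => u ^ κ) := by
    apply Asymptotics.IsLittleO.const_mul_left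
    apply Asymptotics.IsLittleO.add
    · exact (isLittleO_log_rpow_atTop hκ).const_mul_left 2
    · exact Asymptotics.isLittleO_const_left.2 (Or.inr (by
        refine tendsto_norm_atTop_atTop.comp (tendsto_rpow_atTop hκ)))
  have h2 := (h1.comp_tendsto tendsto_natCast_atTop_atTop).bound (c := 1) one_pos
  filter_upwards [h2, eventually_ge_atTop 1] with N hN hN1
  simp only [Function.comp, Real.norm_eq_abs, one_mul] at hN
  have hN1' : (1 : ℝ) ≤ N := by exact_mod_cast hN1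
  rw [abs_of_pos (Real.rpow_pos_of_pos (by linarith) κ)] at hN
  exact (i0_le s N).trans ((le_abs_self _).trans hN)

/-- the exponential sums for the frequencies in question -/
theorem rho_sqrt (s A : ℕ) : ∃ C N0 : ℕ, ∀ N : ℕ, N0 ≤ N → ∀ P : ℕ, N ^ C ≤ P →
    1 ≤ P ∧ ∀ x : ℝ, 1 / (N : ℝ) ≤ |x| → |x| ≤ N → ∀ b : ℕ, 2 ≤ b → b ≤ N ^ A →
    ∀ h n : ℕ, 1 ≤ h → h ≤ N → n ≤ N →
    ∀ T : ℤ, T ≠ 0 → |(T : ℝ)| ≤ 2 * s * h * (b : ℝ) ^ n →
      ‖∑ r ∈ FS P, e (r * (T * (x * (b : ℝ) ^ i0 s N)))‖ ≤ (FS P).card * ((N : ℝ) ^ s)⁻¹ := by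
  obtain ⟨P0, hP0, hrel⟩ := rel (1 / 2) (by norm_num)
  obtain ⟨N1, hN1⟩ := eventually_atTop.1 (ev_i0 s 1 one_pos)
  refine ⟨4 * (s + 2) + 24, max (max N1 P0) (2 * s + 2 * A + 100), fun N hN P hP => ?_⟩
  have hNa : N1 ≤ N := (le_max_left _ _).trans ((le_max_left _ _).trans hN)
  have hNb : P0 ≤ N := (le_max_right _ _).trans ((le_max_left _ _).trans hN)
  have hNc : 2 * s + 2 * A + 100 ≤ N := (le_max_right _ _).trans hN
  have hi := hN1 N hNa
  rw [Real.rpow_one] at hi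
  have hNR : 2 * (s : ℝ) + 2 * A + 100 ≤ N := by exact_mod_cast hNc
  have hs0 : (0 : ℝ) ≤ s := Nat.cast_nonneg _
  have hA0 : (0 : ℝ) ≤ A := Nat.cast_nonneg _
  have hN0 : (0 : ℝ) < N := by linarith
  have hN1' : (1 : ℝ) ≤ N := by linarith
  have hNP : N ≤ P := by
    refine le_trans ?_ hP
    exact Nat.le_self_pow (by omega) N
  have hPR : (N : ℝ) ^ (4 * (s + 2) + 24) ≤ P := by exact_mod_cast hP
  have hP1 : (1 : ℝ) ≤ P := hN1'.trans (by exact_mod_cast hNP)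
  have hPp : (0 : ℝ) < P := by linarith
  refine ⟨by omega, fun x hx1 hx2 b hb2 hbA h n hh1 hhN hn T hT hTb => ?_⟩
  obtain ⟨-, hr⟩ := hrel P (hNb.trans hNP)
  have hbR : (2 : ℝ) ≤ b := by exact_mod_cast hb2
  have hb1 : (1 : ℝ) ≤ b := by linarith
  set θ : ℝ := T * (x * (b : ℝ) ^ i0 s N) with hθ
  have hT1 : (1 : ℝ) ≤ |(T : ℝ)| := by
    have : (1 : ℤ) ≤ |T| := Int.one_le_abs hT
    exact_mod_cast this
  have hpi := pow_i0 s N b hb2
  have habs : |θ| = |(T : ℝ)| * |x| * (b : ℝ) ^ i0 s N := by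
    rw [hθ, abs_mul, abs_mul, abs_of_nonneg (by positivity : (0 : ℝ) ≤ (b : ℝ) ^ i0 s N)]
    ring
  have hθ1 : (N : ℝ) ^ (s + 2) ≤ |θ| := by
    rw [habs]
    calc (N : ℝ) ^ (s + 2) = 1 * (1 / N) * (N : ℝ) ^ (s + 3) := by
          field_simp
          ring
      _ ≤ |(T : ℝ)| * |x| * (b : ℝ) ^ i0 s N := by gcongr
  have hθ1' : 1 ≤ |θ| := (one_le_pow₀ hN1').trans hθ1
  have hθ0 : 0 < |θ| := by linarith
  refine (hr θ hθ1').trans ?_
  apply mul_le_mul_of_nonneg_left _ (Nat.cast_nonneg _)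
  -- the first term
  have hlogN : Real.log N ≤ N := (Real.log_le_sub_one_of_pos hN0).trans (by linarith)
  have hlogb : Real.log b ≤ A * N := by
    calc Real.log b ≤ Real.log ((N : ℝ) ^ A) := by
          apply Real.log_le_log (by linarith)
          exact_mod_cast hbA
      _ = A * Real.log N := Real.log_pow _ _
      _ ≤ A * N := by gcongr
  have hlogθ : Real.log |θ| ≤ N ^ 3 := by
    have h1 : |θ| ≤ (2 * s * N * N) * (b : ℝ) ^ (n + i0 s N) := by
      rw [habs, pow_add]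
      have hhR : (h : ℝ) ≤ N := by exact_mod_cast hhN
      calc |(T : ℝ)| * |x| * (b : ℝ) ^ i0 s N ≤ (2 * s * h * (b : ℝ) ^ n) * N * (b : ℝ) ^ i0 s N := by
            gcongr
        _ ≤ (2 * s * N * (b : ℝ) ^ n) * N * (b : ℝ) ^ i0 s N := by gcongr
        _ = _ := by ring
    have hs1 : (1 : ℝ) ≤ s := by
      rcases Nat.eq_zero_or_pos s with h0 | h0
      · subst h0
        simp only [Nat.cast_zero, mul_zero, zero_mul] at hTb
        linarith
      · exact_mod_cast h0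
    have h2 : Real.log |θ| ≤ Real.log (2 * s * N * N) + (n + i0 s N : ℕ) * Real.log b := by
      refine (Real.log_le_log hθ0 h1).trans (le_of_eq ?_)
      rw [Real.log_mul (by positivity) (by positivity), Real.log_pow]
    have h3 : Real.log (2 * s * N * N) ≤ 3 * N := by
      have h4 : Real.log (2 * s * N * N) = Real.log (2 * s) + Real.log N + Real.log N := by
        rw [Real.log_mul (by positivity) (by positivity), Real.log_mul (by positivity) (by positivity)]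
      have h5 : Real.log (2 * s) ≤ 2 * s := (Real.log_le_sub_one_of_pos (by positivity)).trans (by linarith)
      rw [h4]
      linarith
    have h4 : ((n + i0 s N : ℕ) : ℝ) ≤ 2 * N := by
      push_cast
      have : (n : ℝ) ≤ N := by exact_mod_cast hn
      linarith
    have h5 : ((n + i0 s N : ℕ) : ℝ) * Real.log b ≤ 2 * N * (A * N) :=
      mul_le_mul h4 hlogb (Real.log_nonneg hb1) (by positivity)
    have h6 : 3 * (N : ℝ) + 2 * N * (A * N) ≤ N ^ 3 := by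
      have h7 : (3 + 2 * (A : ℝ)) * N ^ 2 ≤ N ^ 3 := by
        rw [pow_succ (N : ℝ) 2, mul_comm]
        exact mul_le_mul_of_nonneg_left (by linarith) (by positivity)
      nlinarith
    linarith
  have hP8 : (N : ℝ) ^ 3 ≤ (P : ℝ) ^ ((1 : ℝ) / 8) := by
    calc (N : ℝ) ^ 3 = ((N : ℝ) ^ 24) ^ ((1 : ℝ) / 8) := by
          rw [← Real.rpow_natCast, ← Real.rpow_natCast, ← Real.rpow_mul hN0.le]
          norm_num
      _ ≤ (P : ℝ) ^ ((1 : ℝ) / 8) := by
          apply Real.rpow_le_rpow (by positivity) _ (by norm_num)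
          refine le_trans ?_ hPR
          exact pow_le_pow_right₀ hN1' (by omega)
  have hlog3P : Real.log (3 * P) ≤ 24 * (P : ℝ) ^ ((1 : ℝ) / 8) := by
    have h1 := Real.log_le_rpow_div (x := 3 * (P : ℝ)) (by positivity) (ε := 1 / 8) (by norm_num)
    refine h1.trans ?_
    rw [Real.mul_rpow (by norm_num) hPp.le]
    have h2 : (3 : ℝ) ^ ((1 : ℝ) / 8) ≤ 3 := by
      calc (3 : ℝ) ^ ((1 : ℝ) / 8) ≤ (3 : ℝ) ^ (1 : ℝ) :=
            Real.rpow_le_rpow_of_exponent_le (by norm_num) (by norm_num)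
        _ = 3 := Real.rpow_one _
    have h3 : 0 ≤ (P : ℝ) ^ ((1 : ℝ) / 8) := by positivity
    rw [div_le_iff₀ (by norm_num)]
    nlinarith
  have hlog : Real.log (|θ| + 2 * P) ≤ 25 * (P : ℝ) ^ ((1 : ℝ) / 8) := by
    have h1 : |θ| + 2 * P ≤ |θ| * (3 * P) := by nlinarith
    have h2 : Real.log (|θ| + 2 * P) ≤ Real.log |θ| + Real.log (3 * P) := by
      refine (Real.log_le_log (by positivity) h1).trans (le_of_eq ?_)
      rw [Real.log_mul hθ0.ne' (by positivity)]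
    linarith
  have hfirst : (P : ℝ) ^ (-1 + (1 : ℝ) / 2) * Real.log (|θ| + 2 * P) ≤
      25 * ((N : ℝ) ^ (s + 2))⁻¹ := by
    have h1 : (P : ℝ) ^ (-1 + (1 : ℝ) / 2) * (P : ℝ) ^ ((1 : ℝ) / 8) ≤ ((N : ℝ) ^ (s + 2))⁻¹ := by
      rw [← Real.rpow_add hPp]
      calc (P : ℝ) ^ (-1 + (1 : ℝ) / 2 + 1 / 8) ≤ (P : ℝ) ^ (-((1 : ℝ) / 4)) :=
            Real.rpow_le_rpow_of_exponent_le hP1 (by norm_num)
        _ = ((P : ℝ) ^ ((1 : ℝ) / 4))⁻¹ := Real.rpow_neg hPp.le _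
        _ ≤ ((N : ℝ) ^ (s + 2))⁻¹ := by
            apply inv_anti₀ (by positivity)
            calc (N : ℝ) ^ (s + 2) = ((N : ℝ) ^ (4 * (s + 2))) ^ ((1 : ℝ) / 4) := by
                  rw [← Real.rpow_natCast, ← Real.rpow_natCast, ← Real.rpow_mul hN0.le]
                  congr 1
                  push_cast
                  ring
              _ ≤ (P : ℝ) ^ ((1 : ℝ) / 4) := by
                  apply Real.rpow_le_rpow (by positivity) _ (by norm_num)
                  refine le_trans ?_ hPR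
                  exact pow_le_pow_right₀ hN1' (by omega)
    have h2 : 0 ≤ (P : ℝ) ^ (-1 + (1 : ℝ) / 2) := by positivity
    calc (P : ℝ) ^ (-1 + (1 : ℝ) / 2) * Real.log (|θ| + 2 * P) ≤
          (P : ℝ) ^ (-1 + (1 : ℝ) / 2) * (25 * (P : ℝ) ^ ((1 : ℝ) / 8)) :=
          mul_le_mul_of_nonneg_left hlog h2
      _ = 25 * ((P : ℝ) ^ (-1 + (1 : ℝ) / 2) * (P : ℝ) ^ ((1 : ℝ) / 8)) := by ring
      _ ≤ _ := by gcongr
  have hsecond : 32 / |θ| ≤ 32 * ((N : ℝ) ^ (s + 2))⁻¹ := by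
    rw [div_eq_mul_inv]
    gcongr
  have h1 : 57 * ((N : ℝ) ^ (s + 2))⁻¹ ≤ ((N : ℝ) ^ s)⁻¹ := by
    rw [pow_add, mul_inv]
    have h2 : 57 * ((N : ℝ) ^ 2)⁻¹ ≤ 1 := by
      rw [← div_eq_mul_inv, div_le_one (by positivity)]
      nlinarith
    have h3 : 0 ≤ ((N : ℝ) ^ s)⁻¹ := by positivity
    nlinarith
  linarith

open scoped Classical in
/-- **Square-root discrepancy.** -/
theorem sqrt_main (A : ℕ) (δ : ℝ) (hδ : 0 < δ) : ∃ C N0 : ℕ, ∀ N : ℕ, N0 ≤ N → ∀ P : ℕ, N ^ C ≤ P →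
    ∀ x : ℝ, 1 / (N : ℝ) ≤ |x| → |x| ≤ N →
      (((FS P).filter (fun r : ℚ => ¬ ∀ b : ℕ, 2 ≤ b → b ≤ N ^ A →
        DU b N ((N : ℝ) ^ (1 / 2 + δ)) (r * x))).card : ℝ) * N ^ A ≤ (FS P).card := by
  classical
  set s : ℕ := max 1 ⌈(2 * (A : ℝ) + 4) / δ⌉₊ with hs
  have hs1 : 1 ≤ s := le_max_left _ _
  have hsδ : 2 * (A : ℝ) + 4 ≤ s * δ := by
    have h0 : ⌈(2 * (A : ℝ) + 4) / δ⌉₊ ≤ s := le_max_right _ _
    have h1 : (2 * (A : ℝ) + 4) / δ ≤ s := (Nat.le_ceil _).trans (Nat.cast_le.2 h0)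
    rwa [div_le_iff₀ hδ] at h1
  obtain ⟨C, N1, hρ⟩ := rho_sqrt s A
  set C' : ℕ := s ^ (2 * s) * (2 * (2 * s) + 1) ^ (2 * s) + 1 with hC'
  have hl2 : ∀ᶠ N : ℕ in atTop, 8 + 4 * Real.log N ≤ (N : ℝ) ^ (δ / 2) := by
    have h1 : (fun u : ℝ => 8 + 4 * Real.log u) =o[atTop] (fun u : ℝ => u ^ (δ / 2)) := by
      apply Asymptotics.IsLittleO.add
      · exact Asymptotics.isLittleO_const_left.2 (Or.inr (by
          refine tendsto_norm_atTop_atTop.comp (tendsto_rpow_atTop (by positivity))))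
      · exact (isLittleO_log_rpow_atTop (by positivity)).const_mul_left 4
    have h2 := (h1.comp_tendsto tendsto_natCast_atTop_atTop).bound (c := 1) one_pos
    filter_upwards [h2, eventually_ge_atTop 1] with N hN hN1
    simp only [Function.comp, Real.norm_eq_abs, one_mul] at hN
    have hN1' : (1 : ℝ) ≤ N := by exact_mod_cast hN1
    rw [abs_of_nonneg (a := (N : ℝ) ^ (δ / 2)) (by positivity)] at hN
    exact (le_abs_self _).trans hN
  obtain ⟨N2, hN2⟩ := eventually_atTop.1 (hl2.and (ev_i0 s (1 / 2) (by norm_num)))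
  refine ⟨C, max (max N1 N2) (max 1 (2 * C')), fun N hN P hP x hx1 hx2 => ?_⟩
  have hNa : N1 ≤ N := ((le_max_left _ _).trans (le_max_left _ _)).trans hN
  obtain ⟨hNc, hi⟩ := hN2 N (((le_max_right _ _).trans (le_max_left _ _)).trans hN)
  have hNd : 1 ≤ N := ((le_max_left _ _).trans (le_max_right _ _)).trans hN
  have hNe : 2 * C' ≤ N := ((le_max_right _ _).trans (le_max_right _ _)).trans hN
  have hNR : (1 : ℝ) ≤ N := by exact_mod_cast hNd
  have hN0 : (0 : ℝ) < N := by linarith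
  obtain ⟨hP1, hρ⟩ := hρ N hNa P hP
  set F := FS P with hF
  set T : ℝ := (N : ℝ) ^ (1 / 2 + δ / 2) with hTd
  have hT0 : 0 < T := Real.rpow_pos_of_pos hN0 _
  have hTs : T ^ (2 * s) = (N : ℝ) ^ s * (N : ℝ) ^ (s * δ) := by
    rw [hTd, ← Real.rpow_natCast, ← Real.rpow_mul hN0.le, ← Real.rpow_natCast (N : ℝ) s,
      ← Real.rpow_add hN0]
    congr 1
    push_cast
    ring
  have hTs2 : (N : ℝ) ^ s * (N : ℝ) ^ (2 * A + 4) ≤ T ^ (2 * s) := by
    rw [hTs]
    apply mul_le_mul_of_nonneg_left _ (by positivity)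
    rw [← Real.rpow_natCast]
    apply Real.rpow_le_rpow_of_exponent_le hNR
    push_cast
    exact hsδ
  -- the exceptional sets
  set S : ℕ → ℕ → ℕ → ℚ → ℝ := fun b h n r =>
    ‖∑ i ∈ Icc 1 n, e (h * (r * (x * (b : ℝ) ^ i0 s N)) * (b : ℝ) ^ i)‖ with hS
  set E : ℕ → ℕ → ℕ → Finset ℚ := fun b h n => F.filter (fun r => T < S b h n r) with hE
  have hEc : ∀ b ∈ Icc 2 (N ^ A), ∀ h ∈ Icc 1 N, ∀ n ∈ range (N + 1),
      ((E b h n).card : ℝ) ≤ F.card * C' / N ^ (2 * A + 4) := by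
    intro b hb h hh n hn
    rw [mem_Icc] at hb hh
    rw [mem_range] at hn
    have hnN : n ≤ N := by omega
    have h1 := moment F b hb.1 s hs1 (x * (b : ℝ) ^ i0 s N) h n hh.1 (F.card * ((N : ℝ) ^ s)⁻¹)
      (by positivity) (fun T hT hTb => hρ x hx1 hx2 b hb.1 hb.2 h n hh.1 hh.2 hnN T hT hTb)
    have h2 := markov F (S b h n) (fun r => norm_nonneg _) (2 * s) T _ hT0 h1
    refine h2.trans ?_
    rw [div_le_div_iff₀ (by positivity) (by positivity)]
    have hnR : (n : ℝ) ≤ N := by exact_mod_cast hnN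
    have h3 : (F.card : ℝ) * ((s ^ (2 * s) * (2 * (2 * s) + 1) ^ (2 * s) * n ^ s : ℕ) : ℝ) +
        (n : ℝ) ^ (2 * s) * (F.card * ((N : ℝ) ^ s)⁻¹) ≤ F.card * C' * N ^ s := by
      have h4 : (n : ℝ) ^ (2 * s) * (F.card * ((N : ℝ) ^ s)⁻¹) ≤ F.card * N ^ s := by
        calc (n : ℝ) ^ (2 * s) * (F.card * ((N : ℝ) ^ s)⁻¹) ≤
              (N : ℝ) ^ (2 * s) * (F.card * ((N : ℝ) ^ s)⁻¹) := by gcongr
          _ = F.card * N ^ s := by
              rw [two_mul, pow_add]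
              field_simp
      have h5 : ((s ^ (2 * s) * (2 * (2 * s) + 1) ^ (2 * s) * n ^ s : ℕ) : ℝ) ≤
          ((s ^ (2 * s) * (2 * (2 * s) + 1) ^ (2 * s) : ℕ) : ℝ) * N ^ s := by
        push_cast
        gcongr
      have h6 : (F.card : ℝ) * ((s ^ (2 * s) * (2 * (2 * s) + 1) ^ (2 * s) * n ^ s : ℕ) : ℝ) ≤
          F.card * (((s ^ (2 * s) * (2 * (2 * s) + 1) ^ (2 * s) : ℕ) : ℝ) * N ^ s) :=
        mul_le_mul_of_nonneg_left h5 (Nat.cast_nonneg _)
      have h7 : (C' : ℝ) = ((s ^ (2 * s) * (2 * (2 * s) + 1) ^ (2 * s) : ℕ) : ℝ) + 1 := by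
        rw [hC']
        push_cast
        ring
      rw [h7]
      linarith
    calc _ ≤ (F.card : ℝ) * C' * N ^ s * (N : ℝ) ^ (2 * A + 4) :=
          mul_le_mul_of_nonneg_right h3 (by positivity)
      _ = F.card * C' * (N ^ s * (N : ℝ) ^ (2 * A + 4)) := by ring
      _ ≤ F.card * C' * T ^ (2 * s) := by gcongr
  set U : Finset ℚ := (Icc 2 (N ^ A)).biUnion fun b => (Icc 1 N).biUnion fun h =>
    (range (N + 1)).biUnion fun n => E b h n with hU
  have hUc : (U.card : ℝ) ≤ N ^ A * (N * ((N + 1) * (F.card * C' / N ^ (2 * A + 4)))) := by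
    have h1 : ∀ b ∈ Icc 2 (N ^ A), ∀ h ∈ Icc 1 N,
        ((((range (N + 1)).biUnion fun n => E b h n).card : ℕ) : ℝ) ≤
          (N + 1) * (F.card * C' / N ^ (2 * A + 4)) := by
      intro b hb h hh
      refine (Nat.cast_le.2 card_biUnion_le).trans ?_
      push_cast
      refine (sum_le_sum (hEc b hb h hh)).trans ?_
      rw [sum_const, card_range, nsmul_eq_mul]
      push_cast
      exact le_rfl
    have h2 : ∀ b ∈ Icc 2 (N ^ A), ((((Icc 1 N).biUnion fun h =>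
        (range (N + 1)).biUnion fun n => E b h n).card : ℕ) : ℝ) ≤
          N * ((N + 1) * (F.card * C' / N ^ (2 * A + 4))) := by
      intro b hb
      refine (Nat.cast_le.2 card_biUnion_le).trans ?_
      push_cast
      refine (sum_le_sum (h1 b hb)).trans ?_
      rw [sum_const, Nat.card_Icc, nsmul_eq_mul, Nat.add_sub_cancel]
    refine (Nat.cast_le.2 card_biUnion_le).trans ?_
    push_cast
    refine (sum_le_sum h2).trans ?_
    rw [sum_const, Nat.card_Icc, nsmul_eq_mul]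
    apply mul_le_mul_of_nonneg_right _ (by positivity)
    exact_mod_cast (by omega : N ^ A + 1 - 2 ≤ N ^ A)
  have hfin : (U.card : ℝ) * N ^ A ≤ F.card := by
    have h1 : (N : ℝ) ^ A * (N * ((N + 1) * (F.card * C' / N ^ (2 * A + 4)))) * N ^ A =
        F.card * (C' * (N + 1) / N ^ 3) := by
      have : (N : ℝ) ^ (2 * A + 4) = N ^ A * N ^ A * N ^ 4 := by ring
      rw [this]
      field_simp
    have h2 : (C' : ℝ) * (N + 1) / N ^ 3 ≤ 1 := by
      rw [div_le_one (by positivity)]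
      have h3 : 2 * (C' : ℝ) ≤ N := by exact_mod_cast hNe
      have h4 : (0 : ℝ) ≤ C' := Nat.cast_nonneg _
      have h5 : (N : ℝ) ^ 2 ≤ N ^ 3 := pow_le_pow_right₀ hNR (by norm_num)
      nlinarith
    calc (U.card : ℝ) * N ^ A ≤ (N : ℝ) ^ A * (N * ((N + 1) * (F.card * C' / N ^ (2 * A + 4)))) * N ^ A :=
          mul_le_mul_of_nonneg_right hUc (by positivity)
      _ = F.card * (C' * (N + 1) / N ^ 3) := h1
      _ ≤ F.card * 1 := mul_le_mul_of_nonneg_left h2 (Nat.cast_nonneg _)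
      _ = F.card := mul_one _
  refine le_trans ?_ hfin
  apply mul_le_mul_of_nonneg_right _ (by positivity)
  refine Nat.cast_le.2 (card_le_card ?_)
  intro r hr
  rw [mem_filter] at hr
  obtain ⟨hrF, hbad⟩ := hr
  by_contra hrU
  apply hbad
  intro b hb2 hbB n hn α β h0 h1 h2
  have hT : ∀ h : ℕ, 1 ≤ h → h ≤ N → ‖∑ i ∈ Icc 1 n, e (h * ((r * x) * (b : ℝ) ^ i))‖ ≤ 2 * T := by
    intro h hh1 hh2
    have h3 : S b h (n - i0 s N) r ≤ T := by
      by_contra hcon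
      push Not at hcon
      apply hrU
      rw [hU, mem_biUnion]
      refine ⟨b, mem_Icc.2 ⟨hb2, hbB⟩, ?_⟩
      rw [mem_biUnion]
      refine ⟨h, mem_Icc.2 ⟨hh1, hh2⟩, ?_⟩
      rw [mem_biUnion]
      refine ⟨n - i0 s N, mem_range.2 (by omega), ?_⟩
      rw [hE]
      simp only [mem_filter]
      exact ⟨hrF, hcon⟩
    have h4 := split_first (r * x) b h (i0 s N) n hT0.le (by
      refine le_trans (le_of_eq ?_) h3
      rw [hS]
      simp only
      congr 1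
      refine sum_congr rfl fun i _ => ?_
      congr 1
      ring)
    refine h4.trans ?_
    have h5 : (N : ℝ) ^ ((1 : ℝ) / 2) ≤ T := by
      rw [hTd]
      exact Real.rpow_le_rpow_of_exponent_le hNR (by linarith)
    linarith
  have h5 := Pool.Agent.R485.Mult.dev_bound (fun i => (r * x) * (b : ℝ) ^ i) n N hn hNd (2 * T) hT α β h0 h1 h2
  refine h5.trans ?_
  have h6 : Real.sqrt N ≤ T := by
    rw [Real.sqrt_eq_rpow, hTd]
    exact Real.rpow_le_rpow_of_exponent_le hNR (by linarith)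
  have h7 : (N : ℝ) ^ (1 / 2 + δ) = T * (N : ℝ) ^ (δ / 2) := by
    rw [hTd, ← Real.rpow_add hN0]
    congr 1
    ring
  rw [h7]
  have h8 := mul_le_mul_of_nonneg_left hNc hT0.le
  nlinarith

end Pool.Agent.W5h30.RM
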