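import Mathlib
import Pool.Agent.W5h30.RM.Sqrt

/-!
# Translations (helper30)
-/

set_option autoImplicit false

namespace Pool.Agent.W5h30.RM

open Finset

lemma DU_iff (b N : ℕ) (E z : ℝ) : (∀ n : ℕ, n ≤ N → ∀ α β : ℝ, 0 ≤ α → α < β → β ≤ 1 →
    |(({i : ℕ | 1 ≤ i ∧ i ≤ n ∧ α ≤ Int.fract (z * (b : ℝ) ^ i) ∧
      Int.fract (z * (b : ℝ) ^ i) < β}.ncard : ℕ) : ℝ) - (β - α) * n| ≤ E) ↔ DU b N E z := by
  classical
  unfold DU
  refine forall_congr' fun n => imp_congr_right fun _ => forall_congr' fun α =>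
    forall_congr' fun β => imp_congr_right fun _ => imp_congr_right fun _ =>
      imp_congr_right fun _ => ?_
  rw [← Set.ncard_coe_finset]
  have : {i : ℕ | 1 ≤ i ∧ i ≤ n ∧ α ≤ Int.fract (z * (b : ℝ) ^ i) ∧
      Int.fract (z * (b : ℝ) ^ i) < β} = (((Icc 1 n).filter (fun i : ℕ =>
      α ≤ Int.fract (z * (b : ℝ) ^ i) ∧ Int.fract (z * (b : ℝ) ^ i) < β) : Finset ℕ) : Set ℕ) := by
    ext i
    simp [and_assoc]
  rw [this]

lemma coe_FS (P : ℕ) : {r : ℚ | 0 < r ∧ r < 1 ∧ r.den.Prime ∧ r.den ≤ P} = (FS P : Set ℚ) := by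
  ext r
  rw [mem_coe, mem_FS, Set.mem_setOf_eq]

open scoped Classical in
lemma ncard_sep (P : ℕ) (p : ℚ → Prop) :
    {r : ℚ | r ∈ {r : ℚ | 0 < r ∧ r < 1 ∧ r.den.Prime ∧ r.den ≤ P} ∧ p r}.ncard =
      ((FS P).filter p).card := by
  rw [← Set.ncard_coe_finset]
  congr 1
  ext r
  rw [coe_FS]
  simp only [Set.mem_setOf_eq, mem_coe, mem_filter]

end Pool.Agent.W5h30.RM
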