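import Mathlib
import Pool.Agent.W5h30.RM.Fam

/-!
# Numbers all of whose rational multiples of height `P` are far from normal at `N ≥ C P` (helper30)
-/

set_option autoImplicit false

namespace Pool.Agent.W5h30.RM

open Finset Filter Topology

lemma pr_prod_le (P : ℕ) : ∏ p ∈ Pr P, p ≤ 4 ^ P := by
  have h := primorial_le_four_pow P
  unfold primorial at h
  exact h

lemma alg_sqrt_two : IsAlgebraic ℚ (√2 : ℝ) := by
  refine ⟨Polynomial.X ^ 2 - Polynomial.C 2, ?_, ?_⟩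
  · exact Polynomial.X_pow_sub_C_ne_zero (by norm_num) _
  · simp

/-- the bad indices -/
lemma bad_card (M D u N : ℕ) (hD : 1 ≤ D) (hDM : D ≤ M) (hu : u ≤ M) :
    ((Icc 1 N).filter (fun i => M - D < (u + i) % M)).card ≤ (N / M + 2) * D := by
  classical
  have hM : 0 < M := by omega
  calc ((Icc 1 N).filter (fun i => M - D < (u + i) % M)).card ≤
        ((range (N / M + 2)) ×ˢ (Ioo (M - D) M)).card := by
        refine card_le_card_of_injOn (fun i => ((u + i) / M, (u + i) % M)) ?_ ?_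
        · intro i hi
          rw [mem_coe, mem_filter, mem_Icc] at hi
          rw [mem_coe, mem_product, mem_range, mem_Ioo]
          refine ⟨?_, hi.2, Nat.mod_lt _ hM⟩
          calc (u + i) / M ≤ (M + N) / M := Nat.div_le_div_right (by omega)
            _ = N / M + 1 := by rw [Nat.add_comm, Nat.add_div_right _ hM]
            _ < N / M + 2 := by omega
        · intro i _ j _ h
          simp only [Prod.mk.injEq] at h
          have h1 := Nat.div_add_mod (u + i) M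
          have h2 := Nat.div_add_mod (u + j) M
          rw [h.1, h.2] at h1
          omega
    _ ≤ (N / M + 2) * D := by
        rw [card_product, card_range, Nat.card_Ioo]
        apply Nat.mul_le_mul_left
        omega

/-- **Sharpness.** -/
theorem sharp (b : ℕ) (hb : 2 ≤ b) (η : ℝ) (hη : 0 < η) : ∃ C : ℕ, ∀ P : ℕ, 1 ≤ P →
    ∀ N : ℕ, C * P ≤ N → ∃ x : ℝ, IsAlgebraic ℚ x ∧ Irrational x ∧ 1 ≤ x ∧ x ≤ b + 1 ∧
      ∀ r ∈ FS P, (1 - η) * N ≤
        ((((Icc 1 N).filter (fun i : ℕ => Int.fract ((r * x) * (b : ℝ) ^ i) < 1 / b)).card : ℕ) : ℝ) := by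
  classical
  obtain ⟨m, hm⟩ : ∃ m : ℕ, m = ⌈2 / η⌉₊ + 1 := ⟨_, rfl⟩
  have hm1 : 1 ≤ m := by omega
  have hmη : 1 ≤ η / 2 * m := by
    have h1 : 2 / η ≤ m := by
      rw [hm]
      push_cast
      linarith [Nat.le_ceil (2 / η)]
    rw [div_le_iff₀ hη] at h1
    linarith
  refine ⟨24 * m, fun P hP N hN => ?_⟩
  have hbR : (2 : ℝ) ≤ b := by exact_mod_cast hb
  have hb0 : (0 : ℝ) < b := by linarith
  obtain ⟨D, hD⟩ : ∃ D : ℕ, D = 2 * P + 4 := ⟨_, rfl⟩
  obtain ⟨M, hM⟩ : ∃ M : ℕ, M = m * D := ⟨_, rfl⟩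
  have hDM : D ≤ M := by rw [hM]; exact Nat.le_mul_of_pos_left _ (by omega)
  have hM0 : 0 < M := by omega
  obtain ⟨Q, hQ⟩ : ∃ Q : ℕ, Q = ∏ p ∈ Pr P, p := ⟨_, rfl⟩
  have hQ1 : 1 ≤ Q := by
    rw [hQ]
    exact Nat.one_le_iff_ne_zero.2 (prod_ne_zero_iff.2 fun p hp => (mem_Pr.1 hp).1.ne_zero)
  have hQ4 : Q ≤ 4 ^ P := by rw [hQ]; exact pr_prod_le P
  have hQD : 8 * b * Q ≤ b ^ D := by
    have h1 : 4 ^ P ≤ b ^ (2 * P) := by
      rw [pow_mul]
      exact Nat.pow_le_pow_left (by nlinarith) P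
    have h2 : 8 ≤ b ^ 3 := by
      calc 8 = 2 ^ 3 := by norm_num
        _ ≤ b ^ 3 := Nat.pow_le_pow_left hb 3
    calc 8 * b * Q ≤ b ^ 3 * b * b ^ (2 * P) := by
          apply Nat.mul_le_mul (Nat.mul_le_mul_right _ h2) (hQ4.trans h1)
      _ = b ^ D := by rw [hD]; ring
  have hQDR : 8 * (b : ℝ) * Q ≤ (b : ℝ) ^ D := by exact_mod_cast hQD
  have hQR : (1 : ℝ) ≤ Q := by exact_mod_cast hQ1
  have hbM : (b : ℝ) ^ D ≤ (b : ℝ) ^ M := pow_le_pow_right₀ (by linarith) hDM
  have hbM2 : 2 ≤ (b : ℝ) ^ M := by nlinarith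
  obtain ⟨B, hB⟩ : ∃ B : ℝ, B = (b : ℝ) ^ M - 1 := ⟨_, rfl⟩
  have hB0 : 0 < B := by rw [hB]; linarith
  have hB2 : (b : ℝ) ^ M ≤ 2 * B := by rw [hB]; linarith
  -- the exponent
  obtain ⟨u, hu1, hu2, huM⟩ : ∃ u : ℕ, 1 ≤ (b : ℝ) ^ u * (Q / B) ∧ (b : ℝ) ^ u * (Q / B) ≤ b ∧ u ≤ M := by
    have hex : ∃ u : ℕ, 1 ≤ (b : ℝ) ^ u * (Q / B) := by
      refine ⟨M, ?_⟩
      rw [← mul_div_assoc, le_div_iff₀ hB0]
      rw [hB]
      have : 0 < (b : ℝ) ^ M := by positivity
      nlinarith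
    refine ⟨Nat.find hex, Nat.find_spec hex, ?_, ?_⟩
    · rcases Nat.eq_zero_or_pos (Nat.find hex) with h0 | h0
      · rw [h0, pow_zero, one_mul]
        have : (Q : ℝ) / B ≤ 1 := by
          rw [div_le_one hB0]
          nlinarith
        linarith
      · have h1 := Nat.find_min hex (m := Nat.find hex - 1) (by omega)
        push Not at h1
        have h2 : (b : ℝ) ^ Nat.find hex = b * (b : ℝ) ^ (Nat.find hex - 1) := by
          rw [← pow_succ']
          congr 1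
          omega
        rw [h2, mul_assoc]
        nlinarith
    · apply Nat.find_min' hex
      rw [← mul_div_assoc, le_div_iff₀ hB0]
      rw [hB]
      have : 0 < (b : ℝ) ^ M := by positivity
      nlinarith
  obtain ⟨t, ht⟩ : ∃ t : ℝ, t = √2 * (1 / (8 * (b : ℝ) ^ (N + 1))) := ⟨_, rfl⟩
  have hs2 : √2 < 2 := by
    rw [Real.sqrt_lt' (by norm_num)]
    norm_num
  have ht0 : 0 < t := by rw [ht]; positivity
  have htb : t * (b : ℝ) ^ N ≤ 1 / (4 * b) := by
    rw [ht, pow_succ]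
    have h1 : √2 * (1 / (8 * ((b : ℝ) ^ N * b))) * (b : ℝ) ^ N = √2 / (8 * b) := by
      field_simp
    rw [h1, div_le_div_iff₀ (by positivity) (by positivity)]
    nlinarith
  refine ⟨(b : ℝ) ^ u * (Q / B) + t, ?_, ?_, by linarith, ?_, ?_⟩
  · have h1 : (b : ℝ) ^ u * (Q / B) = ((((b : ℚ) ^ u * (Q / ((b : ℚ) ^ M - 1)) : ℚ)) : ℝ) := by
      rw [hB]; push_cast; ring
    have h2 : t = √2 * (((1 / (8 * (b : ℚ) ^ (N + 1)) : ℚ)) : ℝ) := by
      rw [ht]; push_cast; ring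
    rw [h1, h2]
    exact (isAlgebraic_algebraMap (R := ℚ) (A := ℝ) _).add
      (alg_sqrt_two.mul (isAlgebraic_algebraMap (R := ℚ) (A := ℝ) _))
  · have h1 : (b : ℝ) ^ u * (Q / B) = ((((b : ℚ) ^ u * (Q / ((b : ℚ) ^ M - 1)) : ℚ)) : ℝ) := by
      rw [hB]; push_cast; ring
    have h2 : t = √2 * (((1 / (8 * (b : ℚ) ^ (N + 1)) : ℚ)) : ℝ) := by
      rw [ht]; push_cast; ring
    rw [h1, h2]
    apply Irrational.ratCast_add
    apply irrational_sqrt_two.mul_ratCast
    have : (0 : ℚ) < b := by exact_mod_cast (by omega : 0 < b)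
    positivity
  · have h1 : t ≤ t * (b : ℝ) ^ N := le_mul_of_one_le_right ht0.le (one_le_pow₀ (by linarith))
    have h2 : 1 / (4 * (b : ℝ)) ≤ 1 := by
      rw [div_le_one (by positivity)]
      linarith
    linarith
  · intro r hr
    rw [FS, mem_biUnion] at hr
    obtain ⟨p, hp, hr⟩ := hr
    rw [mem_image] at hr
    obtain ⟨a, ha, rfl⟩ := hr
    rw [mem_Ico] at ha
    have hpp := (mem_Pr.1 hp).1
    have hp0 : (0 : ℝ) < p := by exact_mod_cast hpp.pos
    obtain ⟨q, hq⟩ : p ∣ Q := by rw [hQ]; exact dvd_prod_of_mem _ hp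
    have haR : (a : ℝ) < p := by exact_mod_cast ha.2
    have hgood : ∀ i ∈ Icc 1 N, ¬ (M - D < (u + i) % M) →
        Int.fract (((((a : ℚ) / (p : ℚ) : ℚ) : ℝ) * ((b : ℝ) ^ u * (Q / B) + t)) * (b : ℝ) ^ i) < 1 / b := by
      intro i hi hl
      rw [mem_Icc] at hi
      push Not at hl
      obtain ⟨l, hldef⟩ : ∃ l : ℕ, l = (u + i) % M := ⟨_, rfl⟩
      obtain ⟨k, hk⟩ : ∃ k : ℕ, k = (u + i) / M := ⟨_, rfl⟩
      rw [← hldef] at hl
      have hui : u + i = M * k + l := by rw [hk, hldef]; exact (Nat.div_add_mod _ _).symm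
      -- the integral part
      obtain ⟨z, hz⟩ : ∃ z : ℤ, (b : ℝ) ^ (M * k) - 1 = z * B := by
        have h1 : ((b : ℤ) ^ M - 1) ∣ ((b : ℤ) ^ M) ^ k - 1 ^ k := sub_dvd_pow_sub_pow _ _ k
        obtain ⟨z, hz⟩ := h1
        refine ⟨z, ?_⟩
        rw [one_pow, ← pow_mul] at hz
        have h2 : (((b : ℤ) ^ (M * k) - 1 : ℤ) : ℝ) = ((((b : ℤ) ^ M - 1) * z : ℤ) : ℝ) := by rw [hz]
        push_cast at h2
        rw [h2, hB]
        ring
      have e1 : ((((a : ℚ) / (p : ℚ) : ℚ) : ℝ) * ((b : ℝ) ^ u * (Q / B) + t)) * (b : ℝ) ^ i =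
          ((a * q * b ^ l * z : ℤ) : ℝ) + (a * q * (b : ℝ) ^ l / B + (a / p) * (t * (b : ℝ) ^ i)) := by
        have h2 : (Q : ℝ) = p * q := by exact_mod_cast hq
        have h3 : (b : ℝ) ^ u * (b : ℝ) ^ i = (b : ℝ) ^ l * (1 + z * B) := by
          rw [← pow_add, hui, pow_add]
          have : (b : ℝ) ^ (M * k) = 1 + z * B := by linarith
          rw [this]
          ring
        have h4 : (a : ℝ) / p * ((b : ℝ) ^ u * ((p * q : ℝ) / B)) * (b : ℝ) ^ i =
            a * q / B * ((b : ℝ) ^ u * (b : ℝ) ^ i) := by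
          field_simp
        push_cast
        rw [h2]
        calc (a : ℝ) / p * ((b : ℝ) ^ u * (p * q / B) + t) * (b : ℝ) ^ i =
              (a : ℝ) / p * ((b : ℝ) ^ u * (p * q / B)) * (b : ℝ) ^ i + a / p * (t * (b : ℝ) ^ i) := by ring
          _ = a * q / B * ((b : ℝ) ^ l * (1 + z * B)) + a / p * (t * (b : ℝ) ^ i) := by rw [h4, h3]
          _ = _ := by
              have : (a : ℝ) * q / B * ((b : ℝ) ^ l * (1 + z * B)) =
                  a * q * (b : ℝ) ^ l * z + a * q * (b : ℝ) ^ l / B := by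
                field_simp
                ring
              rw [this]
              ring
      rw [e1, Int.fract_intCast_add]
      have h5 : (a : ℝ) * q ≤ Q := by
        have h2 : (Q : ℝ) = p * q := by exact_mod_cast hq
        rw [h2]
        have : (0 : ℝ) ≤ q := Nat.cast_nonneg _
        nlinarith
      have h6 : (a : ℝ) * q * (b : ℝ) ^ l / B ≤ 1 / (4 * b) := by
        have h7 : (b : ℝ) ^ l * (b : ℝ) ^ D ≤ (b : ℝ) ^ M := by
          rw [← pow_add]
          exact pow_le_pow_right₀ (by linarith) (by omega)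
        rw [div_le_div_iff₀ hB0 (by positivity)]
        have h8 : (b : ℝ) ^ l * (8 * (b : ℝ) * Q) ≤ 2 * B :=
          (mul_le_mul_of_nonneg_left hQDR (by positivity)).trans (h7.trans hB2)
        have h9 : (a : ℝ) * q * ((b : ℝ) ^ l * (4 * b)) ≤ Q * ((b : ℝ) ^ l * (4 * b)) :=
          mul_le_mul_of_nonneg_right h5 (by positivity)
        nlinarith
      have h7 : (a : ℝ) / p * (t * (b : ℝ) ^ i) ≤ 1 / (4 * b) := by
        have h8 : (a : ℝ) / p ≤ 1 := by rw [div_le_one hp0]; exact haR.le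
        have h9 : t * (b : ℝ) ^ i ≤ t * (b : ℝ) ^ N :=
          mul_le_mul_of_nonneg_left (pow_le_pow_right₀ (by linarith) hi.2) ht0.le
        have h10 : 0 ≤ t * (b : ℝ) ^ i := by positivity
        calc (a : ℝ) / p * (t * (b : ℝ) ^ i) ≤ 1 * (t * (b : ℝ) ^ i) :=
              mul_le_mul_of_nonneg_right h8 h10
          _ ≤ _ := by linarith
      have h8 : 0 ≤ (a : ℝ) * q * (b : ℝ) ^ l / B + (a / p) * (t * (b : ℝ) ^ i) := by positivity
      have h9 : 1 / (4 * (b : ℝ)) + 1 / (4 * b) < 1 / b := by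
        have : 1 / (4 * (b : ℝ)) = 1 / 4 * (1 / b) := by field_simp
        rw [this]
        have : 0 < 1 / (b : ℝ) := by positivity
        linarith
      have h10 : 1 / (b : ℝ) ≤ 1 := by rw [div_le_one hb0]; linarith
      rw [Int.fract_eq_self.2 ⟨h8, by linarith⟩]
      linarith
    have h1 := bad_card M D u N (by omega) hDM huM
    have h2 : ((Icc 1 N).filter (fun i => ¬ (M - D < (u + i) % M))).card ≤
        ((Icc 1 N).filter (fun i : ℕ => Int.fract (((((a : ℚ) / (p : ℚ) : ℚ) : ℝ) *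
          ((b : ℝ) ^ u * (Q / B) + t)) * (b : ℝ) ^ i) < 1 / b)).card := by
      refine card_le_card fun i hi => ?_
      rw [mem_filter] at hi ⊢
      exact ⟨hi.1, hgood i hi.1 hi.2⟩
    have h3 : ((Icc 1 N).filter (fun i => M - D < (u + i) % M)).card +
        ((Icc 1 N).filter (fun i => ¬ (M - D < (u + i) % M))).card = N := by
      rw [card_filter_add_card_filter_not, Nat.card_Icc, Nat.add_sub_cancel]
    have h4 : N ≤ (N / M + 2) * D + ((Icc 1 N).filter (fun i : ℕ =>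
        Int.fract (((((a : ℚ) / (p : ℚ) : ℚ) : ℝ) * ((b : ℝ) ^ u * (Q / B) + t)) * (b : ℝ) ^ i) <
          1 / b)).card := by omega
    have h5 : (((N / M + 2) * D : ℕ) : ℝ) ≤ η * N := by
      have h6 : m * ((N / M) * D) ≤ N := by
        calc m * ((N / M) * D) = (N / M) * M := by rw [hM]; ring
          _ ≤ N := Nat.div_mul_le_self _ _
      have h7 : (m : ℝ) * (((N / M : ℕ) : ℝ) * D) ≤ N := by exact_mod_cast h6
      have h8 : (((N / M : ℕ) : ℝ) * D) ≤ η / 2 * N := by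
        have h9 : 0 ≤ (((N / M : ℕ) : ℝ) * D) := by positivity
        calc (((N / M : ℕ) : ℝ) * D) = 1 * (((N / M : ℕ) : ℝ) * D) := (one_mul _).symm
          _ ≤ (η / 2 * m) * (((N / M : ℕ) : ℝ) * D) := mul_le_mul_of_nonneg_right hmη h9
          _ = η / 2 * (m * (((N / M : ℕ) : ℝ) * D)) := by ring
          _ ≤ η / 2 * N := mul_le_mul_of_nonneg_left h7 (by positivity)
      have h9 : 2 * (D : ℝ) ≤ η / 2 * N := by
        have h10 : m * (24 * P) ≤ N := by
          calc m * (24 * P) = 24 * m * P := by ring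
            _ ≤ N := hN
        have h11 : (m : ℝ) * (24 * P) ≤ N := by exact_mod_cast h10
        have h12 : (D : ℝ) ≤ 6 * P := by
          have : D ≤ 6 * P := by omega
          exact_mod_cast this
        calc 2 * (D : ℝ) ≤ 1 * (24 * P) := by linarith [(Nat.cast_nonneg P : (0 : ℝ) ≤ P)]
          _ ≤ (η / 2 * m) * (24 * P) := mul_le_mul_of_nonneg_right hmη (by positivity)
          _ = η / 2 * (m * (24 * P)) := by ring
          _ ≤ η / 2 * N := mul_le_mul_of_nonneg_left h11 (by positivity)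
      push_cast
      linarith
    have h6 : (N : ℝ) ≤ (((N / M + 2) * D : ℕ) : ℝ) + (((Icc 1 N).filter (fun i : ℕ =>
        Int.fract (((((a : ℚ) / (p : ℚ) : ℚ) : ℝ) * ((b : ℝ) ^ u * (Q / B) + t)) * (b : ℝ) ^ i) <
          1 / b)).card : ℝ) := by exact_mod_cast h4
    linarith

end Pool.Agent.W5h30.RM
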