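import Mathlib
import Pool.Agent.W5h30.RM.Sqrt

/-!
# The digits of the rational multiples of height `P` up to the place `P ^ (1 - ε)` (helper30)
-/

set_option autoImplicit false

namespace Pool.Agent.W5h30.RM

open Finset Filter Topology
open Pool.Agent.H469R2.NK (e norm_e e_add e_zero conj_e)

/-- passing to a nearby index -/
lemma dev_near (t : ℕ → ℝ) {m n g : ℕ} (hmn : m ≤ n) (hng : n ≤ m + g) {D α β : ℝ} (hα : 0 ≤ α)
    (hαβ : α < β) (hβ : β ≤ 1)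
    (h : |(((Icc 1 m).filter (fun i : ℕ => α ≤ Int.fract (t i) ∧ Int.fract (t i) < β)).card : ℝ) -
      (β - α) * m| ≤ D) :
    |(((Icc 1 n).filter (fun i : ℕ => α ≤ Int.fract (t i) ∧ Int.fract (t i) < β)).card : ℝ) -
      (β - α) * n| ≤ D + g := by
  classical
  have h1 : (Icc 1 n) = (Icc 1 m) ∪ (Ioc m n) := by
    ext i
    simp only [mem_Icc, mem_union, mem_Ioc]
    omega
  have hd : Disjoint (Icc 1 m) (Ioc m n) := by
    rw [disjoint_left]
    intro i hi hi2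
    rw [mem_Icc] at hi
    rw [mem_Ioc] at hi2
    omega
  set p : ℕ → Prop := fun i => α ≤ Int.fract (t i) ∧ Int.fract (t i) < β with hp
  have h2 : ((Icc 1 n).filter (fun i : ℕ => α ≤ Int.fract (t i) ∧ Int.fract (t i) < β)).card =
      ((Icc 1 m).filter (fun i : ℕ => α ≤ Int.fract (t i) ∧ Int.fract (t i) < β)).card +
        ((Ioc m n).filter (fun i : ℕ => α ≤ Int.fract (t i) ∧ Int.fract (t i) < β)).card := by
    rw [h1, filter_union, card_union_of_disjoint]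
    exact disjoint_filter_filter hd
  have h3 : ((Ioc m n).filter (fun i : ℕ => α ≤ Int.fract (t i) ∧ Int.fract (t i) < β)).card ≤ n - m := by
    refine (card_filter_le _ _).trans ?_
    rw [Nat.card_Ioc]
  have h4 : (((Ioc m n).filter (fun i : ℕ => α ≤ Int.fract (t i) ∧ Int.fract (t i) < β)).card : ℝ) ≤
      n - m := by
    have : (((n - m : ℕ)) : ℝ) = n - m := Nat.cast_sub hmn
    rw [← this]
    exact_mod_cast h3
  have h5 : (0 : ℝ) ≤ (((Ioc m n).filter (fun i : ℕ => α ≤ Int.fract (t i) ∧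
    Int.fract (t i) < β)).card : ℝ) := Nat.cast_nonneg _
  have h6 : (n : ℝ) ≤ m + g := by exact_mod_cast hng
  have h7 : (m : ℝ) ≤ n := by exact_mod_cast hmn
  rw [h2]
  push_cast
  rw [abs_le] at h ⊢
  have h8 : 0 ≤ (β - α) * ((n : ℝ) - m) := mul_nonneg (by linarith) (by linarith)
  have h9 : (β - α) * ((n : ℝ) - m) ≤ n - m := by nlinarith
  constructor <;> nlinarith [h.1, h.2]

lemma ev_log2 (c : ℝ) (hc : 0 < c) : ∀ᶠ P : ℕ in atTop,
    6 * Real.log P ^ 2 + 10 * Real.log P + 20 ≤ 1 / 2 * (P : ℝ) ^ c := by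
  have h0 : (fun u : ℝ => Real.log u) =o[atTop] (fun u : ℝ => u ^ (c / 2)) :=
    isLittleO_log_rpow_atTop (by positivity)
  have h1 := (h0.comp_tendsto tendsto_natCast_atTop_atTop).bound (c := 1 / 8) (by norm_num)
  have h2 : Tendsto (fun P : ℕ => (P : ℝ) ^ (c / 2)) atTop atTop :=
    (tendsto_rpow_atTop (by positivity)).comp tendsto_natCast_atTop_atTop
  filter_upwards [h1, h2.eventually_ge_atTop 100, eventually_ge_atTop 1] with P h1 h2 hP
  have hPR : (1 : ℝ) ≤ P := by exact_mod_cast hP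
  have hlog : 0 ≤ Real.log P := Real.log_nonneg hPR
  simp only [Function.comp, Real.norm_eq_abs] at h1
  rw [abs_of_nonneg hlog, abs_of_pos (Real.rpow_pos_of_pos (by linarith) _)] at h1
  have h3 : (P : ℝ) ^ c = (P : ℝ) ^ (c / 2) * (P : ℝ) ^ (c / 2) := by
    rw [← Real.rpow_add (by linarith)]
    congr 1
    ring
  rw [h3]
  set y := (P : ℝ) ^ (c / 2) with hy
  have h4 : Real.log P ^ 2 ≤ (1 / 8 * y) ^ 2 := pow_le_pow_left₀ hlog h1 2
  nlinarith

lemma ev_const (c M : ℝ) (hc : 0 < c) : ∀ᶠ P : ℕ in atTop, M ≤ (P : ℝ) ^ c :=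
  ((tendsto_rpow_atTop hc).comp tendsto_natCast_atTop_atTop).eventually_ge_atTop M

open scoped Classical in
theorem thr_main (ε : ℝ) (hε0 : 0 < ε) (hε1 : ε < 1) : ∃ c : ℝ, 0 < c ∧ ∃ P0 : ℕ, ∀ P : ℕ, P0 ≤ P →
    ∀ x : ℝ, 1 / (P : ℝ) ≤ |x| → |x| ≤ P →
      (((FS P).filter (fun r : ℚ => ¬ ∀ b : ℕ, 2 ≤ b → (b : ℝ) ≤ (P : ℝ) ^ c → ∀ N : ℕ,
        (N : ℝ) ≤ (P : ℝ) ^ (1 - ε) → DU b N ((P : ℝ) ^ (1 - ε - c)) (r * x))).card : ℝ) ≤
        (P : ℝ) ^ (-c) * (FS P).card := by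
  classical
  obtain ⟨μ, hμ⟩ : ∃ μ : ℝ, μ = min ε (1 - ε) := ⟨_, rfl⟩
  have hμ0 : 0 < μ := by rw [hμ]; exact lt_min hε0 (by linarith)
  have hμε : μ ≤ ε := by rw [hμ]; exact min_le_left _ _
  have hμε' : μ ≤ 1 - ε := by rw [hμ]; exact min_le_right _ _
  obtain ⟨c, hc⟩ : ∃ c : ℝ, c = μ / 40 := ⟨_, rfl⟩
  have hc0 : 0 < c := by rw [hc]; positivity
  obtain ⟨P1, hP1, hrel⟩ := rel c hc0
  obtain ⟨P2, hP2⟩ := eventually_atTop.1 ((ev_log2 c hc0).and ((ev_const (26 * c) 108 (by positivity)).and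
    (((ev_i0 0 (1 - ε - 2 * c) (by linarith)).and (ev_const (1 - ε - 2 * c) 1 (by linarith))).and
      (ev_const (4 * c) 1 (by positivity)))))
  refine ⟨c, hc0, max (max P1 P2) 32, fun P hP x hx1 hx2 => ?_⟩
  have hPa : P1 ≤ P := (le_max_left _ _).trans ((le_max_left _ _).trans hP)
  have hPb : P2 ≤ P := (le_max_right _ _).trans ((le_max_left _ _).trans hP)
  have hPc : 32 ≤ P := (le_max_right _ _).trans hP
  obtain ⟨hL, hX1, ⟨hi, hT1⟩, hK1⟩ := hP2 P hPb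
  obtain ⟨-, hr⟩ := hrel P hPa
  have hPR : (32 : ℝ) ≤ P := by exact_mod_cast hPc
  have hPp : (0 : ℝ) < P := by linarith
  have hP1' : (1 : ℝ) ≤ P := by linarith
  have hlogP : 0 ≤ Real.log P := Real.log_nonneg hP1'
  set F := FS P with hF
  obtain ⟨X, hX⟩ : ∃ X : ℝ, X = (P : ℝ) ^ (1 - ε) := ⟨_, rfl⟩
  have hX0 : 0 < X := by rw [hX]; positivity
  have hXge1 : 1 ≤ X := by rw [hX]; exact Real.one_le_rpow hP1' (by linarith)
  obtain ⟨T, hT⟩ : ∃ T : ℝ, T = (P : ℝ) ^ (1 - ε - 2 * c) := ⟨_, rfl⟩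
  have hT0 : 0 < T := by rw [hT]; positivity
  rw [← hT] at hi hT1
  have hTX : T * (P : ℝ) ^ (2 * c) = X := by
    rw [hT, hX, ← Real.rpow_add hPp]
    congr 1
    ring
  have hTc : T * (P : ℝ) ^ c = (P : ℝ) ^ (1 - ε - c) := by
    rw [hT, ← Real.rpow_add hPp]
    congr 1
    ring
  obtain ⟨K, hK⟩ : ∃ K : ℕ, K = ⌈(P : ℝ) ^ (4 * c)⌉₊ := ⟨_, rfl⟩
  have hKl : (P : ℝ) ^ (4 * c) ≤ K := by rw [hK]; exact Nat.le_ceil _
  have hKu : (K : ℝ) ≤ 2 * (P : ℝ) ^ (4 * c) := by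
    have := (Nat.ceil_lt_add_one (by positivity : 0 ≤ (P : ℝ) ^ (4 * c))).le
    rw [← hK] at this
    linarith
  have hKone : (1 : ℝ) ≤ K := hK1.trans hKl
  have hK1n : 1 ≤ K := by exact_mod_cast hKone
  have h4c : (P : ℝ) ^ (4 * c) ≤ P := by
    calc (P : ℝ) ^ (4 * c) ≤ (P : ℝ) ^ (1 : ℝ) := Real.rpow_le_rpow_of_exponent_le hP1' (by linarith)
      _ = P := Real.rpow_one _
  have hK2P : (K : ℝ) ≤ 2 * P := by linarith
  obtain ⟨g, hg⟩ : ∃ g : ℕ, g = ⌈T⌉₊ := ⟨_, rfl⟩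
  have hgl : T ≤ g := by rw [hg]; exact Nat.le_ceil _
  have hgu : (g : ℝ) ≤ 2 * T := by
    have := (Nat.ceil_lt_add_one hT0.le).le
    rw [← hg] at this
    linarith
  have hg0 : 0 < g := by
    have : (0 : ℝ) < g := by linarith
    exact_mod_cast this
  obtain ⟨G, hG⟩ : ∃ G : ℕ, G = ⌊(P : ℝ) ^ (2 * c)⌋₊ + 1 := ⟨_, rfl⟩
  have hGu : (G : ℝ) ≤ 2 * (P : ℝ) ^ (2 * c) := by
    rw [hG]
    push_cast
    have h1 := Nat.floor_le (by positivity : 0 ≤ (P : ℝ) ^ (2 * c))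
    have h2 : 1 ≤ (P : ℝ) ^ (2 * c) := Real.one_le_rpow hP1' (by positivity)
    linarith
  obtain ⟨j0, hj0⟩ : ∃ j0 : ℕ, j0 = i0 0 P := ⟨_, rfl⟩
  obtain ⟨BB, hBB⟩ : ∃ BB : ℕ, BB = ⌊(P : ℝ) ^ c⌋₊ := ⟨_, rfl⟩
  have hBBu : (BB : ℝ) ≤ (P : ℝ) ^ c := by rw [hBB]; exact Nat.floor_le (by positivity)
  have hcP : (P : ℝ) ^ c ≤ P := by
    calc (P : ℝ) ^ c ≤ (P : ℝ) ^ (1 : ℝ) := Real.rpow_le_rpow_of_exponent_le hP1' (by linarith)
      _ = P := Real.rpow_one _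
  -- the exponential sums
  have hρ : ∀ b : ℕ, 2 ≤ b → b ≤ BB → ∀ h n : ℕ, 1 ≤ h → h ≤ K → (n : ℝ) ≤ X →
      ∀ U : ℤ, U ≠ 0 → |(U : ℝ)| ≤ 2 * (1 : ℕ) * h * (b : ℝ) ^ n →
        ‖∑ r ∈ F, e (r * (U * (x * (b : ℝ) ^ j0)))‖ ≤ F.card * (2 * (P : ℝ) ^ (-ε + 2 * c)) := by
    intro b hb2 hbB h n hh1 hhK hn U hU hUb
    have hbR : (2 : ℝ) ≤ b := by exact_mod_cast hb2
    have hbP : (b : ℝ) ≤ P := (by exact_mod_cast hbB : (b : ℝ) ≤ BB).trans (hBBu.trans hcP)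
    have hU1 : (1 : ℝ) ≤ |(U : ℝ)| := by
      have : (1 : ℤ) ≤ |U| := Int.one_le_abs hU
      exact_mod_cast this
    have hpi := pow_i0 0 P b hb2
    rw [← hj0, zero_add] at hpi
    set θ : ℝ := U * (x * (b : ℝ) ^ j0) with hθ
    have habs : |θ| = |(U : ℝ)| * |x| * (b : ℝ) ^ j0 := by
      rw [hθ, abs_mul, abs_mul, abs_of_nonneg (by positivity : (0 : ℝ) ≤ (b : ℝ) ^ j0)]
      ring
    have hθ1 : (P : ℝ) ^ 2 ≤ |θ| := by
      rw [habs]
      calc (P : ℝ) ^ 2 = 1 * (1 / P) * (P : ℝ) ^ 3 := by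
            field_simp
        _ ≤ |(U : ℝ)| * |x| * (b : ℝ) ^ j0 := by gcongr
    have hθ1' : 1 ≤ |θ| := (one_le_pow₀ hP1').trans hθ1
    have hθ0 : 0 < |θ| := by linarith
    refine (hr θ hθ1').trans ?_
    apply mul_le_mul_of_nonneg_left _ (Nat.cast_nonneg _)
    have hhR : (1 : ℝ) ≤ h := by exact_mod_cast hh1
    have hhK' : (h : ℝ) ≤ 2 * P := (by exact_mod_cast hhK : (h : ℝ) ≤ K).trans hK2P
    have hlogb : Real.log b ≤ Real.log P := Real.log_le_log (by linarith) hbP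
    have hlogθ : Real.log |θ| ≤ Real.log 4 + 2 * Real.log P + (X + (j0 : ℝ)) * Real.log P := by
      have h1 : |θ| ≤ (4 * (P : ℝ) * P) * (b : ℝ) ^ (n + j0) := by
        rw [habs, pow_add]
        calc |(U : ℝ)| * |x| * (b : ℝ) ^ j0 ≤ (2 * (1 : ℕ) * h * (b : ℝ) ^ n) * P * (b : ℝ) ^ j0 := by
              gcongr
          _ ≤ (2 * (1 : ℕ) * (2 * P) * (b : ℝ) ^ n) * P * (b : ℝ) ^ j0 := by gcongr
          _ = _ := by push_cast; ring
      refine (Real.log_le_log hθ0 h1).trans ?_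
      rw [Real.log_mul (by positivity) (by positivity), Real.log_mul (by positivity) (by positivity),
        Real.log_mul (by norm_num) (by positivity), Real.log_pow]
      push_cast
      have h2 : ((n : ℝ) + j0) * Real.log b ≤ (X + j0) * Real.log P :=
        mul_le_mul (by linarith) hlogb (Real.log_nonneg (by linarith)) (by positivity)
      linarith
    have hj0u : (j0 : ℝ) ≤ 3 * (2 * Real.log P + 1) := by
      have := i0_le 0 P
      rw [← hj0] at this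
      push_cast at this
      linarith
    have hlog : Real.log (|θ| + 2 * P) ≤ X * (P : ℝ) ^ c := by
      have h1 : |θ| + 2 * P ≤ |θ| * (3 * P) := by nlinarith only [hθ1', hP1']
      have h2 : Real.log (|θ| + 2 * P) ≤ Real.log |θ| + (Real.log 3 + Real.log P) := by
        refine (Real.log_le_log (by positivity) h1).trans (le_of_eq ?_)
        rw [Real.log_mul hθ0.ne' (by positivity), Real.log_mul (by norm_num) (by positivity)]
      have h3 : Real.log 4 ≤ 3 := (Real.log_le_sub_one_of_pos (by norm_num)).trans (by norm_num)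
      have h4 : Real.log 3 ≤ 2 := (Real.log_le_sub_one_of_pos (by norm_num)).trans (by norm_num)
      have h5 : (j0 : ℝ) * Real.log P ≤ 3 * (2 * Real.log P + 1) * Real.log P :=
        mul_le_mul_of_nonneg_right hj0u hlogP
      have h6 : Real.log (|θ| + 2 * P) ≤ X * Real.log P +
          (6 * Real.log P ^ 2 + 10 * Real.log P + 20) := by
        nlinarith only [h2, hlogθ, h3, h4, h5, hlogP]
      have h7 : Real.log P ≤ 1 / 2 * (P : ℝ) ^ c := by
        linarith only [sq_nonneg (Real.log P), hL, hlogP]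
      have h8 : X * Real.log P ≤ X * (1 / 2 * (P : ℝ) ^ c) := mul_le_mul_of_nonneg_left h7 hX0.le
      have h9 : 1 / 2 * (P : ℝ) ^ c ≤ X * (1 / 2 * (P : ℝ) ^ c) := by
        have : 0 ≤ 1 / 2 * (P : ℝ) ^ c := by positivity
        nlinarith only [this, hXge1]
      linarith only [h6, h8, h9, hL]
    have h1 : (P : ℝ) ^ (-1 + c) * Real.log (|θ| + 2 * P) ≤ (P : ℝ) ^ (-ε + 2 * c) := by
      calc (P : ℝ) ^ (-1 + c) * Real.log (|θ| + 2 * P) ≤ (P : ℝ) ^ (-1 + c) * (X * (P : ℝ) ^ c) :=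
            mul_le_mul_of_nonneg_left hlog (by positivity)
        _ = (P : ℝ) ^ (-ε + 2 * c) := by
            rw [hX, ← Real.rpow_add hPp, ← Real.rpow_add hPp]
            congr 1
            ring
    have h2 : 32 / |θ| ≤ (P : ℝ) ^ (-ε + 2 * c) := by
      calc 32 / |θ| ≤ 32 / (P : ℝ) ^ 2 := by gcongr
        _ ≤ P / (P : ℝ) ^ 2 := by gcongr
        _ = (P : ℝ) ^ (-1 : ℝ) := by
            rw [Real.rpow_neg_one]
            field_simp
        _ ≤ (P : ℝ) ^ (-ε + 2 * c) := Real.rpow_le_rpow_of_exponent_le hP1' (by linarith)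
    linarith
  -- the exceptional sets
  set S : ℕ → ℕ → ℕ → ℚ → ℝ := fun b h n r =>
    ‖∑ i ∈ Icc 1 n, e (h * (r * (x * (b : ℝ) ^ j0)) * (b : ℝ) ^ i)‖ with hS
  set E : ℕ → ℕ → ℕ → Finset ℚ := fun b h k =>
    if ((k * g : ℕ) : ℝ) ≤ X then F.filter (fun r => T < S b h (k * g - j0) r) else ∅ with hE
  have hEc : ∀ b ∈ Icc 2 BB, ∀ h ∈ Icc 1 K, ∀ k ∈ range G,
      ((E b h k).card : ℝ) ≤ F.card * (27 * (P : ℝ) ^ (-μ + 6 * c)) := by
    intro b hb h hh k hk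
    rw [mem_Icc] at hb hh
    rw [hE]
    simp only
    split_ifs with hkX
    swap
    · rw [card_empty, Nat.cast_zero]
      positivity
    obtain ⟨n, hn⟩ : ∃ n : ℕ, n = k * g - j0 := ⟨_, rfl⟩
    rw [← hn]
    have hnX : (n : ℝ) ≤ X := by
      refine le_trans ?_ hkX
      rw [hn]
      exact_mod_cast Nat.sub_le _ _
    have h1 := moment F b hb.1 1 le_rfl (x * (b : ℝ) ^ j0) h n hh.1
      (F.card * (2 * (P : ℝ) ^ (-ε + 2 * c))) (by positivity)
      (fun U hU hUb => hρ b hb.1 hb.2 h n hh.1 hh.2 hnX U hU hUb)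
    have h2 := markov F (S b h n) (fun r => norm_nonneg _) (2 * 1) T _ hT0 h1
    refine h2.trans ?_
    rw [div_le_iff₀ (by positivity)]
    have hn0 : (0 : ℝ) ≤ n := Nat.cast_nonneg _
    have h3 : (F.card : ℝ) * ((1 ^ (2 * 1) * (2 * (2 * 1) + 1) ^ (2 * 1) * n ^ 1 : ℕ) : ℝ) +
        (n : ℝ) ^ (2 * 1) * (F.card * (2 * (P : ℝ) ^ (-ε + 2 * c))) ≤
          F.card * (25 * X + X ^ 2 * (2 * (P : ℝ) ^ (-ε + 2 * c))) := by
      have h4 : ((1 ^ (2 * 1) * (2 * (2 * 1) + 1) ^ (2 * 1) * n ^ 1 : ℕ) : ℝ) = 25 * n := by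
        push_cast
        ring
      rw [h4]
      have h5 : (n : ℝ) ^ (2 * 1) ≤ X ^ 2 := by
        rw [mul_one]
        exact pow_le_pow_left₀ hn0 hnX 2
      have h6 : (n : ℝ) ^ (2 * 1) * (F.card * (2 * (P : ℝ) ^ (-ε + 2 * c))) ≤
          X ^ 2 * (F.card * (2 * (P : ℝ) ^ (-ε + 2 * c))) := mul_le_mul_of_nonneg_right h5 (by positivity)
      have h7 : (F.card : ℝ) * (25 * n) ≤ F.card * (25 * X) := by gcongr
      linarith
    refine h3.trans ?_
    rw [mul_assoc]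
    apply mul_le_mul_of_nonneg_left _ (Nat.cast_nonneg _)
    have h5 : T ^ (2 * 1) = X ^ 2 * (P : ℝ) ^ (-4 * c) := by
      rw [mul_one, hT, hX, ← Real.rpow_natCast, ← Real.rpow_natCast, ← Real.rpow_mul hPp.le,
        ← Real.rpow_mul hPp.le, ← Real.rpow_add hPp]
      congr 1
      push_cast
      ring
    rw [h5]
    have h6 : X ^ 2 * (2 * (P : ℝ) ^ (-ε + 2 * c)) ≤
        2 * (P : ℝ) ^ (-μ + 6 * c) * (X ^ 2 * (P : ℝ) ^ (-4 * c)) := by
      have h7 : (P : ℝ) ^ (-ε + 2 * c) ≤ (P : ℝ) ^ (-μ + 6 * c) * (P : ℝ) ^ (-4 * c) := by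
        rw [← Real.rpow_add hPp]
        exact Real.rpow_le_rpow_of_exponent_le hP1' (by linarith)
      have h8 : 0 ≤ 2 * X ^ 2 := by positivity
      nlinarith only [h7, h8]
    have h7 : 25 * X ≤ 25 * (P : ℝ) ^ (-μ + 6 * c) * (X ^ 2 * (P : ℝ) ^ (-4 * c)) := by
      have h8 : 1 ≤ (P : ℝ) ^ (-μ + 6 * c) * (X * (P : ℝ) ^ (-4 * c)) := by
        rw [hX, ← Real.rpow_add hPp, ← Real.rpow_add hPp]
        exact Real.one_le_rpow hP1' (by linarith)
      have h9 : 0 ≤ 25 * X := by positivity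
      nlinarith only [h8, h9]
    linarith
  set U : Finset ℚ := (Icc 2 BB).biUnion fun b => (Icc 1 K).biUnion fun h =>
    (range G).biUnion fun k => E b h k with hU
  set w0 : ℝ := F.card * (27 * (P : ℝ) ^ (-μ + 6 * c)) with hw0
  have hw00 : 0 ≤ w0 := by rw [hw0]; positivity
  have hUc : (U.card : ℝ) ≤ BB * (K * (G * w0)) := by
    have h1 : ∀ b ∈ Icc 2 BB, ∀ h ∈ Icc 1 K,
        ((((range G).biUnion fun k => E b h k).card : ℕ) : ℝ) ≤ G * w0 := by
      intro b hb h hh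
      refine (Nat.cast_le.2 card_biUnion_le).trans ?_
      push_cast
      refine (sum_le_sum (hEc b hb h hh)).trans ?_
      rw [sum_const, card_range, nsmul_eq_mul]
    have h2 : ∀ b ∈ Icc 2 BB, ((((Icc 1 K).biUnion fun h =>
        (range G).biUnion fun k => E b h k).card : ℕ) : ℝ) ≤ K * (G * w0) := by
      intro b hb
      refine (Nat.cast_le.2 card_biUnion_le).trans ?_
      push_cast
      refine (sum_le_sum (h1 b hb)).trans ?_
      rw [sum_const, Nat.card_Icc, nsmul_eq_mul, Nat.add_sub_cancel]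
    refine (Nat.cast_le.2 card_biUnion_le).trans ?_
    push_cast
    refine (sum_le_sum h2).trans ?_
    rw [sum_const, Nat.card_Icc, nsmul_eq_mul]
    apply mul_le_mul_of_nonneg_right _ (by positivity)
    exact_mod_cast (by omega : BB + 1 - 2 ≤ BB)
  have hfin : (U.card : ℝ) ≤ (P : ℝ) ^ (-c) * F.card := by
    have h1 : (BB : ℝ) * (K * (G * w0)) ≤
        (P : ℝ) ^ c * (2 * (P : ℝ) ^ (4 * c) * (2 * (P : ℝ) ^ (2 * c) * w0)) := by gcongr
    have h2 : (P : ℝ) ^ c * (2 * (P : ℝ) ^ (4 * c) * (2 * (P : ℝ) ^ (2 * c) * w0)) =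
        F.card * (108 * ((P : ℝ) ^ c * (P : ℝ) ^ (4 * c) * (P : ℝ) ^ (2 * c) *
          (P : ℝ) ^ (-μ + 6 * c))) := by
      rw [hw0]
      ring
    have h3 : (P : ℝ) ^ c * (P : ℝ) ^ (4 * c) * (P : ℝ) ^ (2 * c) * (P : ℝ) ^ (-μ + 6 * c) =
        (P : ℝ) ^ (-μ + 13 * c) := by
      rw [← Real.rpow_add hPp, ← Real.rpow_add hPp, ← Real.rpow_add hPp]
      congr 1
      ring
    have h4 : 108 * (P : ℝ) ^ (-μ + 13 * c) ≤ (P : ℝ) ^ (-c) := by
      have h5 : (P : ℝ) ^ (-c) = (P : ℝ) ^ (26 * c) * (P : ℝ) ^ (-μ + 13 * c) := by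
        rw [← Real.rpow_add hPp]
        congr 1
        rw [hc]
        ring
      rw [h5]
      exact mul_le_mul_of_nonneg_right hX1 (by positivity)
    calc (U.card : ℝ) ≤ _ := hUc.trans h1
      _ = F.card * (108 * (P : ℝ) ^ (-μ + 13 * c)) := by rw [h2, h3]
      _ ≤ F.card * (P : ℝ) ^ (-c) := mul_le_mul_of_nonneg_left h4 (Nat.cast_nonneg _)
      _ = _ := mul_comm _ _
  refine le_trans ?_ hfin
  refine Nat.cast_le.2 (card_le_card ?_)
  intro r hr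
  rw [mem_filter] at hr
  obtain ⟨hrF, hbad⟩ := hr
  by_contra hrU
  apply hbad
  intro b hb2 hbB N hNX n hn α β h0 h1 h2
  have hbBB : b ≤ BB := by rw [hBB]; exact Nat.le_floor hbB
  have hnX : (n : ℝ) ≤ X := by
    rw [hX]
    exact (by exact_mod_cast hn : (n : ℝ) ≤ N).trans hNX
  obtain ⟨k, hk⟩ : ∃ k : ℕ, k = n / g := ⟨_, rfl⟩
  have hkg : k * g ≤ n := by rw [hk]; exact Nat.div_mul_le_self n g
  have hkg2 : n ≤ k * g + g := by
    rw [hk]
    have := Nat.lt_div_mul_add hg0 (a := n)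
    omega
  have hkX : ((k * g : ℕ) : ℝ) ≤ X := (by exact_mod_cast hkg : ((k * g : ℕ) : ℝ) ≤ n).trans hnX
  have hkG : k ∈ range G := by
    rw [mem_range, hG, Nat.lt_succ_iff]
    apply Nat.le_floor
    have h3 : (k : ℝ) * T ≤ X := by
      refine le_trans ?_ hkX
      push_cast
      gcongr
    rw [← hTX] at h3
    have h4 : T * (k : ℝ) ≤ T * (P : ℝ) ^ (2 * c) := by linarith
    exact le_of_mul_le_mul_left h4 hT0
  have hsum : ∀ h : ℕ, 1 ≤ h → h ≤ K →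
      ‖∑ i ∈ Icc 1 (k * g), e (h * ((r * x) * (b : ℝ) ^ i))‖ ≤ 2 * T := by
    intro h hh1 hh2
    have h3 : S b h (k * g - j0) r ≤ T := by
      by_contra hcon
      push Not at hcon
      apply hrU
      rw [hU, mem_biUnion]
      refine ⟨b, mem_Icc.2 ⟨hb2, hbBB⟩, ?_⟩
      rw [mem_biUnion]
      refine ⟨h, mem_Icc.2 ⟨hh1, hh2⟩, ?_⟩
      rw [mem_biUnion]
      refine ⟨k, hkG, ?_⟩
      rw [hE]
      simp only
      rw [if_pos hkX, mem_filter]
      exact ⟨hrF, hcon⟩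
    have h4 := split_first (r * x) b h j0 (k * g) hT0.le (by
      refine le_trans (le_of_eq ?_) h3
      rw [hS]
      simp only
      congr 1
      refine sum_congr rfl fun i _ => ?_
      congr 1
      ring)
    refine h4.trans ?_
    rw [hj0]
    linarith
  have h3 := dev_bound' (fun i => (r * x) * (b : ℝ) ^ i) (k * g) K hK1n (2 * T) hsum α β h0 h1 h2
  have h4 := dev_near (fun i => (r * x) * (b : ℝ) ^ i) hkg hkg2 h0 h1 h2 h3
  refine h4.trans ?_
  have hsq : (P : ℝ) ^ (2 * c) ≤ Real.sqrt K := by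
    apply Real.le_sqrt_of_sq_le
    refine le_trans (le_of_eq ?_) hKl
    rw [← Real.rpow_natCast, ← Real.rpow_mul hPp.le]
    congr 1
    push_cast
    ring
  have h5 : ((k * g : ℕ) : ℝ) / Real.sqrt K ≤ T := by
    have h6 : 0 < Real.sqrt K := lt_of_lt_of_le (by positivity) hsq
    rw [div_le_iff₀ h6]
    calc ((k * g : ℕ) : ℝ) ≤ X := hkX
      _ = T * (P : ℝ) ^ (2 * c) := hTX.symm
      _ ≤ T * Real.sqrt K := mul_le_mul_of_nonneg_left hsq hT0.le
  have h6 : Real.log K ≤ 1 + Real.log P := by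
    calc Real.log K ≤ Real.log (2 * P) := Real.log_le_log (by linarith) hK2P
      _ = Real.log 2 + Real.log P := Real.log_mul (by norm_num) hPp.ne'
      _ ≤ 1 + Real.log P := by
          have := Real.log_two_lt_d9
          linarith
  rw [← hTc]
  have h7 : 14 + 4 * Real.log P ≤ (P : ℝ) ^ c := by
    linarith only [sq_nonneg (Real.log P), hL, hlogP]
  have h8 := mul_le_mul_of_nonneg_left h7 hT0.le
  have h9 : T * (1 + Real.log K) ≤ T * (2 + Real.log P) := mul_le_mul_of_nonneg_left (by linarith) hT0.le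
  linarith only [h9, h5, hgu, h8]

end Pool.Agent.W5h30.RM
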