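import Mathlib
import Pool.Agent.W5h30.SM.Main

/-!
# Total variation for the uniform distribution on a finite set, several windows (helper30)
-/

set_option autoImplicit false
set_option linter.unusedVariables false

namespace Pool.Agent.W5h30.RM

open Finset MeasureTheory Pool.Agent.Y933.KD Pool.Agent.W5h30.SM

theorem tv_n {X : Type} {n : ℕ} (S : Finset X) (hS : S.Nonempty) (u : Fin n → X → ℝ) (K : Fin n → ℕ)
    (hK : ∀ j, 0 < K j) {J : ℕ} (hJ : 0 < J) (E : Finset (Fin n → ℕ)) (hE : ∀ a ∈ E, ∀ j, a j < K j) :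
    |((S.filter (fun x => (fun j => cell (K j) (u j x)) ∈ E)).card : ℝ) / S.card -
      (E.card : ℝ) / ∏ j, (K j : ℝ)| ≤ n * (5 / J) + (4 * n + 1) *
        √(∑ k ∈ (box (rad K J)).erase 0, ‖((S.card : ℝ)⁻¹) • ∑ x ∈ S, e (∑ j, k j * u j x)‖ ^ 2) := by
  classical
  let _ : MeasurableSpace X := ⊤
  have hcard : 0 < S.card := card_pos.2 hS
  set μ : Measure X := (S.card : ENNReal)⁻¹ • ∑ x ∈ S, Measure.dirac x with hμ
  have hμp : IsProbabilityMeasure μ := by
    constructor
    rw [hμ, Measure.smul_apply, Measure.coe_finsetSum, Finset.sum_apply]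
    simp only [measure_univ, sum_const, nsmul_eq_mul, mul_one, smul_eq_mul]
    exact ENNReal.inv_mul_cancel (by exact_mod_cast hcard.ne') (ENNReal.natCast_ne_top _)
  have hint : ∀ {G : Type} [NormedAddCommGroup G] [NormedSpace ℝ G] [CompleteSpace G] (f : X → G),
      ∫ x, f x ∂μ = ((S.card : ℝ)⁻¹) • ∑ x ∈ S, f x := by
    intro G _ _ _ f
    rw [hμ, integral_smul_measure, integral_finsetSum_measure]
    · simp only [integral_dirac]
      congr 1
      rw [ENNReal.toReal_inv, ENNReal.toReal_natCast]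
    · intro i _
      exact integrable_dirac (by simp)
  have h1 := smooth μ K hK hJ u (fun _ => measurable_from_top) E hE
  rw [hint, Fintype.card_fin, smul_eq_mul] at h1
  have h2 : ((S.card : ℝ)⁻¹) * ∑ x ∈ S, (if (fun j => cell (K j) (u j x)) ∈ E then (1 : ℝ) else 0) =
      ((S.filter (fun x => (fun j => cell (K j) (u j x)) ∈ E)).card : ℝ) / S.card := by
    rw [← sum_filter, sum_const, nsmul_eq_mul, mul_one, div_eq_inv_mul]
  rw [h2] at h1
  refine h1.trans (le_of_eq ?_)
  congr 2
  unfold D2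
  congr 1
  refine sum_congr rfl fun k _ => ?_
  unfold SM.hat
  rw [hint]

end Pool.Agent.W5h30.RM
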