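import Mathlib
import Pool.Agent.W5h30.RM.Tvn
import Pool.Agent.W5h30.RM.Thr

/-!
# The joint law of the digits of rational multiples in several windows (helper30)
-/

set_option autoImplicit false

namespace Pool.Agent.W5h30.RM

open Finset Filter Topology
open Pool.Agent.W5h30.SM (box rad cell)

/-- lower bound for a combination of separated numbers -/
lemma low {n : ℕ} (a B : Fin n → ℝ) (k : Fin n → ℤ) (hB : ∀ i, |(k i : ℝ)| ≤ B i)
    (hsep : ∀ i j, i < j → 2 * n * B i * |a i| ≤ |a j|) (j : Fin n) (hj : k j ≠ 0)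
    (htop : ∀ i, j < i → k i = 0) : |(k j : ℝ)| * |a j| / 2 ≤ |∑ i, (k i : ℝ) * a i| := by
  classical
  have hn : 0 < n := j.pos
  have hnR : (0 : ℝ) < n := by exact_mod_cast hn
  have h1 : ∑ i, (k i : ℝ) * a i = k j * a j + ∑ i ∈ univ.erase j, (k i : ℝ) * a i := by
    exact (add_sum_erase univ (fun i => (k i : ℝ) * a i) (mem_univ j)).symm
  have hk1 : (1 : ℝ) ≤ |(k j : ℝ)| := by
    have : (1 : ℤ) ≤ |k j| := Int.one_le_abs hj
    exact_mod_cast this
  have h2 : |∑ i ∈ univ.erase j, (k i : ℝ) * a i| ≤ |a j| / 2 := by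
    calc |∑ i ∈ univ.erase j, (k i : ℝ) * a i| ≤ ∑ i ∈ univ.erase j, |(k i : ℝ) * a i| :=
          abs_sum_le_sum_abs _ _
      _ ≤ ∑ i ∈ univ.erase j, |a j| / (2 * n) := by
          refine sum_le_sum fun i hi => ?_
          rw [mem_erase] at hi
          rcases lt_or_gt_of_ne hi.1 with h | h
          · rw [abs_mul, le_div_iff₀ (by positivity)]
            calc |(k i : ℝ)| * |a i| * (2 * n) ≤ B i * |a i| * (2 * n) := by
                  gcongr
                  exact hB i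
              _ = 2 * n * B i * |a i| := by ring
              _ ≤ |a j| := hsep i j h
          · rw [htop i h]
            simp only [Int.cast_zero, zero_mul, abs_zero]
            positivity
      _ = ((univ.erase j).card : ℝ) * (|a j| / (2 * n)) := by rw [sum_const, nsmul_eq_mul]
      _ ≤ n * (|a j| / (2 * n)) := by
          apply mul_le_mul_of_nonneg_right _ (by positivity)
          have : (univ.erase j).card ≤ n := (card_le_card (erase_subset _ _)).trans (by simp)
          exact_mod_cast this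
      _ = |a j| / 2 := by field_simp
  rw [h1]
  have h3 := abs_sub_abs_le_abs_sub ((k j : ℝ) * a j) (-(∑ i ∈ univ.erase j, (k i : ℝ) * a i))
  rw [abs_neg, sub_neg_eq_add, abs_mul] at h3
  have h4 : |a j| ≤ |(k j : ℝ)| * |a j| := le_mul_of_one_le_left (abs_nonneg _) hk1
  linarith

/-- growth along the windows -/
lemma chain {n : ℕ} (v K : Fin n → ℝ) (q : ℝ) (hq : 1 ≤ q) (hv : ∀ i, q ≤ v i) (hK : ∀ i, 1 ≤ K i)
    (hsep : ∀ i j, i < j → v i * K i * q ≤ v j) :
    ∀ j, q * ∏ i ∈ univ.filter (fun i => i < j), (K i * q) ≤ v j := by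
  classical
  have key : ∀ t : ℕ, ∀ ht : t < n, q * ∏ i ∈ univ.filter (fun i : Fin n => i < ⟨t, ht⟩), (K i * q) ≤
      v ⟨t, ht⟩ := by
    intro t
    induction t with
    | zero =>
      intro ht
      have : univ.filter (fun i : Fin n => i < ⟨0, ht⟩) = ∅ := by
        rw [filter_eq_empty_iff]
        intro i _ h
        exact absurd (Fin.lt_def.1 h) (by simp)
      rw [this, prod_empty, mul_one]
      exact hv _
    | succ t ih =>
      intro ht
      have ht' : t < n := by omega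
      have h1 : univ.filter (fun i : Fin n => i < ⟨t + 1, ht⟩) =
          insert ⟨t, ht'⟩ (univ.filter (fun i : Fin n => i < ⟨t, ht'⟩)) := by
        ext i
        simp only [mem_filter, mem_univ, true_and, mem_insert, Fin.lt_def, Fin.ext_iff]
        omega
      rw [h1, prod_insert (by simp)]
      have h2 := ih ht'
      have h3 := hsep ⟨t, ht'⟩ ⟨t + 1, ht⟩ (by rw [Fin.lt_def]; simp)
      have h4 : 0 ≤ K ⟨t, ht'⟩ * q := mul_nonneg (by linarith [hK ⟨t, ht'⟩]) (by linarith)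
      calc q * (K ⟨t, ht'⟩ * q * ∏ i ∈ univ.filter (fun i : Fin n => i < ⟨t, ht'⟩), (K i * q)) =
            (q * ∏ i ∈ univ.filter (fun i : Fin n => i < ⟨t, ht'⟩), (K i * q)) * (K ⟨t, ht'⟩ * q) := by
            ring
        _ ≤ v ⟨t, ht'⟩ * (K ⟨t, ht'⟩ * q) := mul_le_mul_of_nonneg_right h2 h4
        _ = v ⟨t, ht'⟩ * K ⟨t, ht'⟩ * q := by ring
        _ ≤ _ := h3
  exact fun j => key j.1 j.2

/-- the weight of one coordinate -/
noncomputable def gw (z : ℝ) (k : ℤ) : ℝ := z + if k = 0 then 1 else 1 / (k : ℝ) ^ 2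

lemma gw_nonneg {z : ℝ} (hz : 0 ≤ z) (k : ℤ) : 0 ≤ gw z k := by
  unfold gw
  split_ifs <;> positivity

lemma sum_gw (z : ℝ) (hz : 0 ≤ z) (L : ℕ) (hL : 1 ≤ L) (hzL : 2 * L * z ≤ 4) :
    ∑ k ∈ Ioo (-(L : ℤ)) L, gw z k ≤ 9 := by
  classical
  unfold gw
  rw [sum_add_distrib, sum_const, nsmul_eq_mul]
  have h1 : ((Ioo (-(L : ℤ)) L).card : ℝ) * z ≤ 4 := by
    refine le_trans ?_ hzL
    apply mul_le_mul_of_nonneg_right _ hz
    rw [Int.card_Ioo]
    have : ((L : ℤ) - -(L : ℤ) - 1).toNat ≤ 2 * L := by omega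
    exact_mod_cast this
  have h2 : ∑ k ∈ Ioo (-(L : ℤ)) L, (if k = 0 then (1 : ℝ) else 1 / (k : ℝ) ^ 2) ≤
      1 + 2 * ∑ j ∈ Ioo 0 L, ((j : ℝ) ^ 2)⁻¹ := by
    have h2 : Ioo (-(L : ℤ)) L = insert 0 ((Ioo 0 L).image (fun j : ℕ => (j : ℤ)) ∪
        (Ioo 0 L).image (fun j : ℕ => -(j : ℤ))) := by
      ext j
      simp only [mem_Ioo, mem_insert, mem_union, mem_image]
      constructor
      · intro h
        rcases lt_trichotomy j 0 with h3 | h3 | h3
        · exact Or.inr (Or.inr ⟨j.natAbs, ⟨by omega, by omega⟩, by omega⟩)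
        · exact Or.inl h3
        · exact Or.inr (Or.inl ⟨j.natAbs, ⟨by omega, by omega⟩, by omega⟩)
      · rintro (h | ⟨a, ha, rfl⟩ | ⟨a, ha, rfl⟩) <;> omega
    rw [h2, sum_insert (by
      rw [mem_union, mem_image, mem_image]
      rintro (⟨a, ha, h⟩ | ⟨a, ha, h⟩) <;> rw [mem_Ioo] at ha <;> omega)]
    rw [if_pos rfl]
    have h4 : ∑ j ∈ (Ioo 0 L).image (fun j : ℕ => (j : ℤ)) ∪ (Ioo 0 L).image (fun j : ℕ => -(j : ℤ)),
        (if j = 0 then (1 : ℝ) else 1 / (j : ℝ) ^ 2) ≤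
        ∑ j ∈ (Ioo 0 L).image (fun j : ℕ => (j : ℤ)), (if j = 0 then (1 : ℝ) else 1 / (j : ℝ) ^ 2) +
          ∑ j ∈ (Ioo 0 L).image (fun j : ℕ => -(j : ℤ)),
            (if j = 0 then (1 : ℝ) else 1 / (j : ℝ) ^ 2) := by
      rw [← sum_union_inter]
      have : 0 ≤ ∑ j ∈ (Ioo 0 L).image (fun j : ℕ => (j : ℤ)) ∩
          (Ioo 0 L).image (fun j : ℕ => -(j : ℤ)), (if j = 0 then (1 : ℝ) else 1 / (j : ℝ) ^ 2) :=
        sum_nonneg fun j _ => by split_ifs <;> positivity
      linarith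
    have h5 : ∑ j ∈ (Ioo 0 L).image (fun j : ℕ => (j : ℤ)), (if j = 0 then (1 : ℝ) else 1 / (j : ℝ) ^ 2) =
        ∑ j ∈ Ioo 0 L, ((j : ℝ) ^ 2)⁻¹ := by
      rw [sum_image (fun a _ b _ h => by exact_mod_cast h)]
      refine sum_congr rfl fun j hj => ?_
      rw [mem_Ioo] at hj
      rw [if_neg (by omega), one_div]
      push_cast
      rfl
    have h6 : ∑ j ∈ (Ioo 0 L).image (fun j : ℕ => -(j : ℤ)),
        (if j = 0 then (1 : ℝ) else 1 / (j : ℝ) ^ 2) = ∑ j ∈ Ioo 0 L, ((j : ℝ) ^ 2)⁻¹ := by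
      rw [sum_image (fun a _ b _ h => by simpa using h)]
      refine sum_congr rfl fun j hj => ?_
      rw [mem_Ioo] at hj
      rw [if_neg (by omega), one_div]
      push_cast
      rw [neg_sq]
    rw [h5, h6] at h4
    linarith
  have h3 := sum_Ioo_inv_sq_le (α := ℝ) 0 L
  norm_num at h3
  linarith

/-- the sum of the inverse squares of the frequencies -/
lemma inv_sq {n : ℕ} (a : Fin n → ℝ) (K : Fin n → ℕ) (J : ℕ) (q : ℝ) (hJ : 1 ≤ J) (hK : ∀ i, 1 ≤ K i)
    (hq : 1 ≤ q) (hJq : 4 * n * (J : ℝ) ^ 2 ≤ q) (hJq' : (J : ℝ) ^ 2 ≤ q) (hv : ∀ i, q ≤ |a i|)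
    (hsep : ∀ i j, i < j → |a i| * K i * q ≤ |a j|) :
    ∑ k ∈ (box (rad K J)).erase 0, (1 / |∑ i, (k i : ℝ) * a i|) ^ 2 ≤ 4 / q ^ 2 * 9 ^ n ∧
    ∀ k ∈ (box (rad K J)).erase 0, q / 2 ≤ |∑ i, (k i : ℝ) * a i| := by
  classical
  have hJR : (1 : ℝ) ≤ J := by exact_mod_cast hJ
  have hKR : ∀ i, (1 : ℝ) ≤ K i := fun i => by exact_mod_cast hK i
  have hq0 : 0 < q := by linarith
  have hsepB : ∀ i j, i < j → 2 * n * (2 * ((K i : ℝ) * J ^ 2)) * |a i| ≤ |a j| := by
    intro i j hij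
    refine le_trans ?_ (hsep i j hij)
    have h1 : 0 ≤ |a i| * K i := by positivity
    calc 2 * n * (2 * ((K i : ℝ) * J ^ 2)) * |a i| = |a i| * K i * (4 * n * (J : ℝ) ^ 2) := by ring
      _ ≤ |a i| * K i * q := mul_le_mul_of_nonneg_left hJq h1
  have hbox : ∀ k ∈ (box (rad K J)).erase 0, k ≠ 0 ∧ ∀ i, |(k i : ℝ)| ≤ 2 * ((K i : ℝ) * J ^ 2) := by
    intro k hk
    rw [mem_erase] at hk
    refine ⟨hk.1, fun i => ?_⟩
    have h1 := (Fintype.mem_piFinset.1 hk.2) i
    rw [mem_Ioo] at h1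
    unfold rad at h1
    have h2 : |k i| ≤ 2 * ((K i * J ^ 2 : ℕ) : ℤ) := abs_le.2 ⟨h1.1.le, h1.2.le⟩
    have h3 : ((|k i| : ℤ) : ℝ) ≤ ((2 * ((K i * J ^ 2 : ℕ) : ℤ) : ℤ) : ℝ) := Int.cast_le.2 h2
    push_cast at h3
    exact h3
  have htop : ∀ k : Fin n → ℤ, k ≠ 0 → ∃ j, k j ≠ 0 ∧ ∀ i, j < i → k i = 0 := by
    intro k hk
    have hne : (univ.filter (fun i => k i ≠ 0)).Nonempty := by
      by_contra h
      rw [not_nonempty_iff_eq_empty, filter_eq_empty_iff] at h
      apply hk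
      funext i
      simpa using h (mem_univ i)
    refine ⟨(univ.filter (fun i => k i ≠ 0)).max' hne, ?_, ?_⟩
    · exact (mem_filter.1 ((univ.filter (fun i => k i ≠ 0)).max'_mem hne)).2
    · intro i hi
      by_contra h
      have := (univ.filter (fun i => k i ≠ 0)).le_max' i (mem_filter.2 ⟨mem_univ _, h⟩)
      exact absurd this (not_le.2 hi)
  have hch := chain (fun i => |a i|) (fun i => (K i : ℝ)) q hq hv hKR hsep
  have hlow : ∀ k ∈ (box (rad K J)).erase 0, ∃ j, k j ≠ 0 ∧ (∀ i, j < i → k i = 0) ∧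
      |(k j : ℝ)| * |a j| / 2 ≤ |∑ i, (k i : ℝ) * a i| := by
    intro k hk
    obtain ⟨h1, h2⟩ := hbox k hk
    obtain ⟨j, hj1, hj2⟩ := htop k h1
    exact ⟨j, hj1, hj2, low a _ k h2 hsepB j hj1 hj2⟩
  constructor
  · have hbound : ∀ k ∈ (box (rad K J)).erase 0, (1 / |∑ i, (k i : ℝ) * a i|) ^ 2 ≤
        4 / q ^ 2 * ∏ i, gw (1 / (K i * q)) (k i) := by
      intro k hk
      obtain ⟨j, hj1, hj2, hj3⟩ := hlow k hk
      have hk1 : (1 : ℝ) ≤ |(k j : ℝ)| := by
        have : (1 : ℤ) ≤ |k j| := Int.one_le_abs hj1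
        exact_mod_cast this
      have haj : q ≤ |a j| := hv j
      have h1 : (1 / |∑ i, (k i : ℝ) * a i|) ^ 2 ≤ 4 / (|a j| ^ 2 * (k j : ℝ) ^ 2) := by
        have h2 : 0 < |(k j : ℝ)| * |a j| / 2 :=
          div_pos (mul_pos (by linarith) (by linarith)) two_pos
        calc (1 / |∑ i, (k i : ℝ) * a i|) ^ 2 ≤ (1 / (|(k j : ℝ)| * |a j| / 2)) ^ 2 := by
              apply pow_le_pow_left₀ (by positivity)
              apply one_div_le_one_div_of_le h2 hj3
          _ = 4 / (|a j| ^ 2 * (k j : ℝ) ^ 2) := by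
              rw [← sq_abs (k j : ℝ)]
              field_simp
              norm_num
      -- the product of the weights
      have h3 : (∏ i ∈ univ.filter (fun i => i < j), (K i * q))⁻¹ * (1 / (k j : ℝ) ^ 2) ≤
          ∏ i, gw (1 / (K i * q)) (k i) := by
        have hz : ∀ i, 0 ≤ 1 / ((K i : ℝ) * q) := fun i => by positivity
        have h4 : ∏ i, (if i < j then 1 / ((K i : ℝ) * q) else if i = j then 1 / (k j : ℝ) ^ 2 else 1) ≤
            ∏ i, gw (1 / (K i * q)) (k i) := by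
          refine prod_le_prod (fun i _ => ?_) fun i _ => ?_
          · split_ifs <;> positivity
          · unfold gw
            rcases lt_trichotomy i j with h | h | h
            · rw [if_pos h]
              have : 0 ≤ (if k i = 0 then (1 : ℝ) else 1 / (k i : ℝ) ^ 2) := by
                split_ifs <;> positivity
              linarith
            · subst h
              rw [if_neg (lt_irrefl _), if_pos rfl, if_neg hj1]
              linarith [hz i]
            · rw [if_neg (not_lt.2 h.le), if_neg (ne_of_gt h), if_pos (hj2 i h)]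
              linarith [hz i]
        refine le_trans (le_of_eq ?_) h4
        rw [prod_ite, prod_ite]
        have h5 : (univ.filter (fun i => ¬ i < j)).filter (fun i => i = j) = {j} := by
          ext i
          simp only [mem_filter, mem_univ, true_and, mem_singleton]
          constructor
          · exact fun h => h.2
          · rintro rfl
            exact ⟨lt_irrefl _, rfl⟩
        rw [h5, prod_singleton, prod_const_one, mul_one, ← prod_inv_distrib]
        congr 1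
        exact prod_congr rfl fun i _ => by rw [one_div]
      have h4 := hch j
      have hprod : 0 < ∏ i ∈ univ.filter (fun i => i < j), ((K i : ℝ) * q) :=
        prod_pos fun i _ => mul_pos (by linarith [hKR i]) hq0
      have h5 : 1 / |a j| ≤ 1 / q * (∏ i ∈ univ.filter (fun i => i < j), ((K i : ℝ) * q))⁻¹ := by
        rw [← one_div (∏ i ∈ univ.filter (fun i => i < j), ((K i : ℝ) * q)), div_mul_div_comm, one_mul]
        exact one_div_le_one_div_of_le (by positivity) h4
      have h6 : 1 / |a j| ≤ 1 / q := one_div_le_one_div_of_le hq0 haj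
      calc (1 / |∑ i, (k i : ℝ) * a i|) ^ 2 ≤ 4 / (|a j| ^ 2 * (k j : ℝ) ^ 2) := h1
        _ = 4 * (1 / |a j|) * (1 / |a j|) * (1 / (k j : ℝ) ^ 2) := by
            have : |a j| ≠ 0 := (by linarith : 0 < |a j|).ne'
            field_simp
        _ ≤ 4 * (1 / q) * (1 / q * (∏ i ∈ univ.filter (fun i => i < j), ((K i : ℝ) * q))⁻¹) *
              (1 / (k j : ℝ) ^ 2) := by gcongr
        _ = 4 / q ^ 2 * ((∏ i ∈ univ.filter (fun i => i < j), ((K i : ℝ) * q))⁻¹ *
              (1 / (k j : ℝ) ^ 2)) := by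
            field_simp
        _ ≤ _ := mul_le_mul_of_nonneg_left h3 (by positivity)
    refine (sum_le_sum hbound).trans ?_
    rw [← mul_sum]
    apply mul_le_mul_of_nonneg_left _ (by positivity)
    have hz : ∀ i, 0 ≤ 1 / ((K i : ℝ) * q) := fun i => by positivity
    calc ∑ k ∈ (box (rad K J)).erase 0, ∏ i, gw (1 / (K i * q)) (k i) ≤
          ∑ k ∈ box (rad K J), ∏ i, gw (1 / (K i * q)) (k i) :=
          sum_le_sum_of_subset_of_nonneg (erase_subset _ _) fun k _ _ =>
            prod_nonneg fun i _ => gw_nonneg (hz i) _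
      _ = ∏ i, ∑ k ∈ Ioo (-(2 * rad K J i : ℤ)) (2 * rad K J i), gw (1 / (K i * q)) k := by
          unfold SM.box
          rw [prod_univ_sum]
      _ ≤ ∏ _i : Fin n, (9 : ℝ) := by
          refine prod_le_prod (fun i _ => sum_nonneg fun k _ => gw_nonneg (hz i) _) fun i _ => ?_
          have h1 := sum_gw (1 / ((K i : ℝ) * q)) (hz i) (2 * (K i * J ^ 2)) (by
            have := hK i
            have h2 : 1 ≤ J ^ 2 := Nat.one_le_pow _ _ hJ
            nlinarith) (by
            push_cast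
            rw [mul_one_div, div_le_iff₀ (mul_pos (by linarith [hKR i]) hq0)]
            have h3 : (0 : ℝ) ≤ K i := by linarith [hKR i]
            nlinarith)
          refine le_trans (le_of_eq ?_) h1
          unfold rad
          push_cast
          rfl
      _ = 9 ^ n := by simp
  · intro k hk
    obtain ⟨j, hj1, hj2, hj3⟩ := hlow k hk
    have hk1 : (1 : ℝ) ≤ |(k j : ℝ)| := by
      have : (1 : ℤ) ≤ |k j| := Int.one_le_abs hj1
      exact_mod_cast this
    have h1 : |a j| ≤ |(k j : ℝ)| * |a j| := le_mul_of_one_le_left (abs_nonneg _) hk1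
    linarith [hv j]

end Pool.Agent.W5h30.RM
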