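import Mathlib
import Pool.Agent.W5h30.RM.Law

/-!
# The joint law of the digits of rational multiples in several windows, main theorem (helper30)
-/

set_option autoImplicit false

namespace Pool.Agent.W5h30.RM

open Finset Filter Topology
open Pool.Agent.W5h30.SM (rad cell)

lemma card_box {n : ℕ} (K : Fin n → ℕ) (J : ℕ) :
    ((SM.box (rad K J)).card : ℝ) ≤ 4 ^ n * (J : ℝ) ^ (2 * n) * ∏ i, (K i : ℝ) := by
  unfold SM.box
  rw [Fintype.card_piFinset]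
  push_cast
  have h1 : ∀ i : Fin n, ((Ioo (-(2 * rad K J i : ℤ)) (2 * rad K J i)).card : ℝ) ≤
      4 * ((J : ℝ) ^ 2 * K i) := by
    intro i
    rw [Int.card_Ioo]
    unfold rad
    have h2 : ((2 * ((K i * J ^ 2 : ℕ) : ℤ)) - -(2 * ((K i * J ^ 2 : ℕ) : ℤ)) - 1).toNat ≤
        4 * (J ^ 2 * K i) := by
      have : ((K i * J ^ 2 : ℕ) : ℤ) = ((J ^ 2 * K i : ℕ) : ℤ) := by rw [mul_comm]
      rw [this]
      omega
    exact_mod_cast h2
  refine (prod_le_prod (fun i _ => Nat.cast_nonneg _) fun i _ => h1 i).trans (le_of_eq ?_)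
  rw [prod_mul_distrib, prod_mul_distrib, prod_const, prod_const, card_univ, Fintype.card_fin]
  ring

lemma ev_const' (c M : ℝ) (hc : 0 < c) : ∀ᶠ P : ℕ in atTop, M ≤ (P : ℝ) ^ c :=
  ((tendsto_rpow_atTop hc).comp tendsto_natCast_atTop_atTop).eventually_ge_atTop M

/-- **The joint law.** -/
theorem joint_law (n : ℕ) (ε : ℝ) (hε : 0 < ε) (hε1 : ε ≤ 1) : ∃ c : ℝ, 0 < c ∧ ∃ P0 : ℕ, ∀ P : ℕ, P0 ≤ P →
    ∀ (x y : Fin n → ℝ) (m K : Fin n → ℕ) (D : ℝ), 1 ≤ D → (∀ i, 1 ≤ K i) →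
      (∀ i, (P : ℝ) ^ ε ≤ m i * |x i|) →
      (∀ i j, i < j → m i * |x i| * K i * (P : ℝ) ^ ε ≤ m j * |x j|) →
      (∀ i, m i * |x i| * K i ≤ Real.exp D) → (∏ i, (K i : ℝ)) * D ^ 2 ≤ (P : ℝ) ^ (2 - ε) →
      ∀ E : Finset (Fin n → ℕ), (∀ w ∈ E, ∀ j, w j < K j) →
        |(((FS P).filter (fun r : ℚ => (fun j => cell (K j) (m j * (r * x j + y j))) ∈ E)).card : ℝ) /
          (FS P).card - (E.card : ℝ) / ∏ i, (K i : ℝ)| ≤ (P : ℝ) ^ (-c) := by
  classical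
  obtain ⟨κ, hκ⟩ : ∃ κ : ℝ, κ = ε / (8 * (n + 1)) := ⟨_, rfl⟩
  have hn0 : (0 : ℝ) ≤ n := Nat.cast_nonneg _
  have hκ0 : 0 < κ := by rw [hκ]; positivity
  have hκe : κ * (8 * (n + 1)) = ε := by
    rw [hκ]
    field_simp
  have hκ1 : κ ≤ ε / 8 := by nlinarith only [hκe, hκ0, hn0]
  have hκ2 : 2 * n * κ ≤ ε / 4 := by nlinarith only [hκe, hκ0, hn0]
  obtain ⟨τ, hτ⟩ : ∃ τ : ℝ, τ = ε / 16 := ⟨_, rfl⟩
  have hτ0 : 0 < τ := by rw [hτ]; positivity
  obtain ⟨c, hc⟩ : ∃ c : ℝ, c = κ / 2 := ⟨_, rfl⟩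
  have hc0 : 0 < c := by rw [hc]; positivity
  obtain ⟨P1, hP1, hrel⟩ := rel τ hτ0
  obtain ⟨P2, hP2⟩ := eventually_atTop.1 (((ev_log2 τ hτ0).and (ev_const' (ε / 4) (32 * (n + 1)) (by positivity))).and
    ((ev_const' (ε / 12) (2 * 4 * 16 ^ n + 2 * 4096 * 9 ^ n) (by positivity)).and
      ((ev_const' c (5 * n + (4 * n + 1)) hc0).and (ev_const' κ 1 hκ0))))
  refine ⟨c, hc0, max (max P1 P2) 32, fun P hP x y m K D hD hK hx hsep hexp hprod E hE => ?_⟩
  have hPa : P1 ≤ P := (le_max_left _ _).trans ((le_max_left _ _).trans hP)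
  have hPb : P2 ≤ P := (le_max_right _ _).trans ((le_max_left _ _).trans hP)
  have hPc : 32 ≤ P := (le_max_right _ _).trans hP
  obtain ⟨⟨hL, hN4⟩, hbig, hcn, hκone⟩ := hP2 P hPb
  obtain ⟨hcard, hr⟩ := hrel P hPa
  have hPR : (32 : ℝ) ≤ P := by exact_mod_cast hPc
  have hPp : (0 : ℝ) < P := by linarith
  have hP1' : (1 : ℝ) ≤ P := by linarith
  have hlogP : 0 ≤ Real.log P := Real.log_nonneg hP1'
  have hcard0 : (0 : ℝ) < (FS P).card := lt_of_lt_of_le (by positivity) hcard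
  have hne : (FS P).Nonempty := by
    rw [← card_pos]
    exact_mod_cast hcard0
  have hKR : ∀ i, (1 : ℝ) ≤ K i := fun i => by exact_mod_cast hK i
  obtain ⟨q, hq⟩ : ∃ q : ℝ, q = (P : ℝ) ^ ε := ⟨_, rfl⟩
  have hq1 : 1 ≤ q := by rw [hq]; exact Real.one_le_rpow hP1' hε.le
  have hq0 : 0 < q := by linarith
  obtain ⟨J, hJ⟩ : ∃ J : ℕ, J = ⌈(P : ℝ) ^ κ⌉₊ := ⟨_, rfl⟩
  have hJl : (P : ℝ) ^ κ ≤ J := by rw [hJ]; exact Nat.le_ceil _
  have hJu : (J : ℝ) ≤ 2 * (P : ℝ) ^ κ := by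
    have := (Nat.ceil_lt_add_one (by positivity : 0 ≤ (P : ℝ) ^ κ)).le
    rw [← hJ] at this
    linarith
  have hJR : (1 : ℝ) ≤ J := hκone.trans hJl
  have hJ1 : 1 ≤ J := by exact_mod_cast hJR
  have hJ2 : (J : ℝ) ^ 2 ≤ 4 * (P : ℝ) ^ (ε / 2) := by
    calc (J : ℝ) ^ 2 ≤ (2 * (P : ℝ) ^ κ) ^ 2 := pow_le_pow_left₀ (by linarith) hJu 2
      _ = 4 * ((P : ℝ) ^ κ * (P : ℝ) ^ κ) := by ring
      _ = 4 * (P : ℝ) ^ (κ + κ) := by rw [← Real.rpow_add hPp]
      _ ≤ 4 * (P : ℝ) ^ (ε / 2) := by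
          apply mul_le_mul_of_nonneg_left _ (by norm_num)
          exact Real.rpow_le_rpow_of_exponent_le hP1' (by linarith)
  have hhalf : (P : ℝ) ^ (ε / 2) * (P : ℝ) ^ (ε / 4) ≤ q := by
    rw [hq, ← Real.rpow_add hPp]
    exact Real.rpow_le_rpow_of_exponent_le hP1' (by linarith)
  have hJq : 4 * n * (J : ℝ) ^ 2 ≤ q := by
    refine le_trans ?_ hhalf
    have h1 : 0 ≤ (P : ℝ) ^ (ε / 2) := by positivity
    calc 4 * n * (J : ℝ) ^ 2 ≤ 4 * n * (4 * (P : ℝ) ^ (ε / 2)) :=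
          mul_le_mul_of_nonneg_left hJ2 (by positivity)
      _ = (P : ℝ) ^ (ε / 2) * (16 * n) := by ring
      _ ≤ (P : ℝ) ^ (ε / 2) * (P : ℝ) ^ (ε / 4) := mul_le_mul_of_nonneg_left (by linarith) h1
  have hJq' : (J : ℝ) ^ 2 ≤ q := by
    refine le_trans ?_ hhalf
    have h1 : 0 ≤ (P : ℝ) ^ (ε / 2) := by positivity
    calc (J : ℝ) ^ 2 ≤ 4 * (P : ℝ) ^ (ε / 2) := hJ2
      _ = (P : ℝ) ^ (ε / 2) * 4 := by ring
      _ ≤ (P : ℝ) ^ (ε / 2) * (P : ℝ) ^ (ε / 4) := mul_le_mul_of_nonneg_left (by linarith) h1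
  -- the numbers `m_i x_i`
  obtain ⟨a, ha⟩ : ∃ a : Fin n → ℝ, ∀ i, a i = m i * x i := ⟨_, fun _ => rfl⟩
  have habs : ∀ i, |a i| = m i * |x i| := fun i => by
    rw [ha, abs_mul, abs_of_nonneg (Nat.cast_nonneg (m i))]
  obtain ⟨hsum2, hlow⟩ := inv_sq a K J q hJ1 hK hq1 hJq hJq' (fun i => by rw [habs, hq]; exact hx i)
    (fun i j hij => by rw [habs, habs, hq]; exact hsep i j hij)
  -- the Fourier coefficients
  obtain ⟨u, hu⟩ : ∃ u : Fin n → ℚ → ℝ, ∀ j r, u j r = m j * (r * x j + y j) := ⟨_, fun _ _ => rfl⟩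
  obtain ⟨W, hW⟩ : ∃ W : ℝ, W = (P : ℝ) ^ (-1 + 2 * τ) * D := ⟨_, rfl⟩
  have hW0 : 0 ≤ W := by rw [hW]; positivity
  have hhat : ∀ k ∈ (SM.box (rad K J)).erase 0,
      ‖(((FS P).card : ℝ)⁻¹) • ∑ r ∈ FS P, Pool.Agent.Y933.KD.e (∑ j, k j * u j r)‖ ^ 2 ≤
        2 * W ^ 2 + 2 * (1024 * (1 / |∑ i, (k i : ℝ) * a i|) ^ 2) := by
    intro k hk
    have hθl := hlow k hk
    obtain ⟨θ, hθ⟩ : ∃ θ : ℝ, θ = ∑ i, (k i : ℝ) * a i := ⟨_, rfl⟩
    rw [← hθ] at hθl ⊢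
    have hq2 : 2 ≤ q := by
      refine le_trans ?_ hhalf
      have h1 : 1 ≤ (P : ℝ) ^ (ε / 2) := Real.one_le_rpow hP1' (by positivity)
      have h2 : 32 ≤ (P : ℝ) ^ (ε / 4) := by linarith only [hN4, hn0]
      nlinarith only [h1, h2]
    have hθ1 : 1 ≤ |θ| := by linarith
    have hθ0 : 0 < |θ| := by linarith
    have hθu : |θ| ≤ P * Real.exp D := by
      rw [hθ]
      calc |∑ i, (k i : ℝ) * a i| ≤ ∑ i, |(k i : ℝ) * a i| := abs_sum_le_sum_abs _ _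
        _ ≤ ∑ _i : Fin n, 2 * (J : ℝ) ^ 2 * Real.exp D := by
            refine sum_le_sum fun i _ => ?_
            rw [abs_mul, habs]
            have h1 := (Fintype.mem_piFinset.1 (mem_erase.1 hk).2) i
            rw [mem_Ioo] at h1
            unfold rad at h1
            have h2 : |k i| ≤ 2 * ((K i * J ^ 2 : ℕ) : ℤ) := abs_le.2 ⟨h1.1.le, h1.2.le⟩
            have h3 : ((|k i| : ℤ) : ℝ) ≤ ((2 * ((K i * J ^ 2 : ℕ) : ℤ) : ℤ) : ℝ) := Int.cast_le.2 h2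
            push_cast at h3
            calc |(k i : ℝ)| * (m i * |x i|) ≤ 2 * (K i * (J : ℝ) ^ 2) * (m i * |x i|) :=
                  mul_le_mul_of_nonneg_right h3 (by positivity)
              _ = 2 * (J : ℝ) ^ 2 * (m i * |x i| * K i) := by ring
              _ ≤ 2 * (J : ℝ) ^ 2 * Real.exp D := mul_le_mul_of_nonneg_left (hexp i) (by positivity)
        _ = (2 * n * (J : ℝ) ^ 2) * Real.exp D := by
            rw [sum_const, card_univ, Fintype.card_fin, nsmul_eq_mul]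
            ring
        _ ≤ P * Real.exp D := by
            apply mul_le_mul_of_nonneg_right _ (Real.exp_pos _).le
            have h1 : q ≤ P := by
              rw [hq]
              calc (P : ℝ) ^ ε ≤ (P : ℝ) ^ (1 : ℝ) := Real.rpow_le_rpow_of_exponent_le hP1' hε1
                _ = P := Real.rpow_one _
            have h2 : 0 ≤ n * (J : ℝ) ^ 2 := by positivity
            linarith only [hJq, h1, h2]
    have hlog : Real.log (|θ| + 2 * P) ≤ D * (P : ℝ) ^ τ := by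
      have h1 : |θ| + 2 * P ≤ |θ| * (3 * P) := by nlinarith only [hθ1, hP1']
      have h2 : Real.log (|θ| + 2 * P) ≤ Real.log |θ| + (Real.log 3 + Real.log P) := by
        refine (Real.log_le_log (by positivity) h1).trans (le_of_eq ?_)
        rw [Real.log_mul hθ0.ne' (by positivity), Real.log_mul (by norm_num) (by positivity)]
      have h3 : Real.log |θ| ≤ Real.log P + D := by
        refine (Real.log_le_log hθ0 hθu).trans (le_of_eq ?_)
        rw [Real.log_mul (by positivity) (Real.exp_pos _).ne', Real.log_exp]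
      have h4 : Real.log 3 ≤ 2 := (Real.log_le_sub_one_of_pos (by norm_num)).trans (by norm_num)
      have h5 : 1 + (2 + 2 * Real.log P) ≤ (P : ℝ) ^ τ := by
        linarith only [sq_nonneg (Real.log P), hL, hlogP]
      have h6 : D * (1 + (2 + 2 * Real.log P)) ≤ D * (P : ℝ) ^ τ :=
        mul_le_mul_of_nonneg_left h5 (by linarith)
      have h7 : (2 + 2 * Real.log P) ≤ D * (2 + 2 * Real.log P) :=
        le_mul_of_one_le_left (by linarith) hD
      linarith only [h2, h3, h4, h6, h7]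
    have hsum : ∑ r ∈ FS P, Pool.Agent.Y933.KD.e (∑ j, k j * u j r) =
        Pool.Agent.H469R2.NK.e (∑ j, k j * (m j * y j)) *
          ∑ r ∈ FS P, Pool.Agent.H469R2.NK.e (r * θ) := by
      rw [mul_sum]
      refine sum_congr rfl fun r _ => ?_
      rw [← Pool.Agent.H469R2.NK.e_add]
      have h1 : ∑ j, (k j : ℝ) * u j r = ∑ j, (k j : ℝ) * (m j * y j) + r * θ := by
        rw [hθ, mul_sum, ← sum_add_distrib]
        refine sum_congr rfl fun j _ => ?_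
        rw [hu, ha]
        ring
      rw [h1]
      rfl
    have hnorm : ‖(((FS P).card : ℝ)⁻¹) • ∑ r ∈ FS P, Pool.Agent.Y933.KD.e (∑ j, k j * u j r)‖ ≤
        W + 32 * (1 / |θ|) := by
      rw [hsum, norm_smul, norm_mul, Pool.Agent.H469R2.NK.norm_e, one_mul, Real.norm_eq_abs,
        abs_of_pos (inv_pos.2 hcard0), inv_mul_le_iff₀ hcard0]
      refine (hr θ hθ1).trans ?_
      apply mul_le_mul_of_nonneg_left _ hcard0.le
      have h1 : (P : ℝ) ^ (-1 + τ) * Real.log (|θ| + 2 * P) ≤ W := by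
        rw [hW]
        calc (P : ℝ) ^ (-1 + τ) * Real.log (|θ| + 2 * P) ≤ (P : ℝ) ^ (-1 + τ) * (D * (P : ℝ) ^ τ) :=
              mul_le_mul_of_nonneg_left hlog (by positivity)
          _ = (P : ℝ) ^ (-1 + τ) * (P : ℝ) ^ τ * D := by ring
          _ = (P : ℝ) ^ (-1 + 2 * τ) * D := by
              rw [← Real.rpow_add hPp]
              congr 2
              ring
      have h2 : 32 / |θ| = 32 * (1 / |θ|) := by ring
      linarith only [h1, h2]
    have h1 : 0 ≤ 1 / |θ| := by positivity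
    calc _ ≤ (W + 32 * (1 / |θ|)) ^ 2 := pow_le_pow_left₀ (norm_nonneg _) hnorm 2
      _ ≤ 2 * W ^ 2 + 2 * (1024 * (1 / |θ|) ^ 2) := by nlinarith only [sq_nonneg (W - 32 * (1 / |θ|))]
  have htot : ∑ k ∈ (SM.box (rad K J)).erase 0,
      ‖(((FS P).card : ℝ)⁻¹) • ∑ r ∈ FS P, Pool.Agent.Y933.KD.e (∑ j, k j * u j r)‖ ^ 2 ≤
        (P : ℝ) ^ (-(2 * (2 * c))) := by
    refine (sum_le_sum hhat).trans ?_
    rw [sum_add_distrib, sum_const, nsmul_eq_mul, ← mul_sum, ← mul_sum]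
    have h1 : (((SM.box (rad K J)).erase 0).card : ℝ) ≤ 4 ^ n * (J : ℝ) ^ (2 * n) * ∏ i, (K i : ℝ) := by
      refine le_trans ?_ (card_box K J)
      exact_mod_cast card_le_card (erase_subset _ _)
    have hJn : (J : ℝ) ^ (2 * n) ≤ 4 ^ n * (P : ℝ) ^ (ε / 4) := by
      calc (J : ℝ) ^ (2 * n) ≤ (2 * (P : ℝ) ^ κ) ^ (2 * n) := pow_le_pow_left₀ (by linarith) hJu _
        _ = 4 ^ n * (P : ℝ) ^ (2 * n * κ) := by
            rw [mul_pow, pow_mul, ← Real.rpow_natCast ((P : ℝ) ^ κ), ← Real.rpow_mul hPp.le]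
            norm_num
            congr 1
            ring
        _ ≤ 4 ^ n * (P : ℝ) ^ (ε / 4) := by
            apply mul_le_mul_of_nonneg_left _ (by positivity)
            exact Real.rpow_le_rpow_of_exponent_le hP1' hκ2
    have hKpos : 0 < ∏ i, (K i : ℝ) := prod_pos fun i _ => by linarith [hKR i]
    have h2 : (((SM.box (rad K J)).erase 0).card : ℝ) * (2 * W ^ 2) ≤
        2 * 16 ^ n * (P : ℝ) ^ (-(ε / 2)) := by
      calc (((SM.box (rad K J)).erase 0).card : ℝ) * (2 * W ^ 2) ≤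
            (4 ^ n * (4 ^ n * (P : ℝ) ^ (ε / 4)) * ∏ i, (K i : ℝ)) * (2 * W ^ 2) := by
            apply mul_le_mul_of_nonneg_right _ (by positivity)
            refine h1.trans ?_
            apply mul_le_mul_of_nonneg_right _ hKpos.le
            exact mul_le_mul_of_nonneg_left hJn (by positivity)
        _ = 2 * 16 ^ n * ((P : ℝ) ^ (ε / 4) * (P : ℝ) ^ (-1 + 2 * τ) * (P : ℝ) ^ (-1 + 2 * τ) *
              ((∏ i, (K i : ℝ)) * D ^ 2)) := by
            rw [hW, show (16 : ℝ) = 4 * 4 by norm_num, mul_pow (4 : ℝ) 4 n]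
            ring
        _ ≤ 2 * 16 ^ n * ((P : ℝ) ^ (ε / 4) * (P : ℝ) ^ (-1 + 2 * τ) * (P : ℝ) ^ (-1 + 2 * τ) *
              (P : ℝ) ^ (2 - ε)) := by
            apply mul_le_mul_of_nonneg_left _ (by positivity)
            exact mul_le_mul_of_nonneg_left hprod (by positivity)
        _ = 2 * 16 ^ n * (P : ℝ) ^ (-(ε / 2)) := by
            rw [← Real.rpow_add hPp, ← Real.rpow_add hPp, ← Real.rpow_add hPp]
            congr 2
            rw [hτ]
            ring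
    have h3 : 2 * (1024 * ∑ k ∈ (SM.box (rad K J)).erase 0, (1 / |∑ i, (k i : ℝ) * a i|) ^ 2) ≤
        2 * 4096 * 9 ^ n * (P : ℝ) ^ (-(ε / 2)) := by
      have h4 : 1 / q ^ 2 ≤ (P : ℝ) ^ (-(ε / 2)) := by
        rw [Real.rpow_neg hPp.le, ← one_div]
        apply one_div_le_one_div_of_le (by positivity)
        have h5 : (P : ℝ) ^ (ε / 2) ≤ q := by
          rw [hq]
          exact Real.rpow_le_rpow_of_exponent_le hP1' (by linarith)
        nlinarith only [h5, hq1]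
      calc 2 * (1024 * ∑ k ∈ (SM.box (rad K J)).erase 0, (1 / |∑ i, (k i : ℝ) * a i|) ^ 2) ≤
            2 * (1024 * (4 / q ^ 2 * 9 ^ n)) := by
            apply mul_le_mul_of_nonneg_left _ (by norm_num)
            exact mul_le_mul_of_nonneg_left hsum2 (by norm_num)
        _ = 2 * 4096 * 9 ^ n * (1 / q ^ 2) := by ring
        _ ≤ _ := mul_le_mul_of_nonneg_left h4 (by positivity)
    have h4 : (2 * 4 * 16 ^ n + 2 * 4096 * 9 ^ n) * (P : ℝ) ^ (-(ε / 2)) ≤ (P : ℝ) ^ (-(2 * (2 * c))) := by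
      calc (2 * 4 * 16 ^ n + 2 * 4096 * 9 ^ n) * (P : ℝ) ^ (-(ε / 2)) ≤
            (P : ℝ) ^ (ε / 12) * (P : ℝ) ^ (-(ε / 2)) := mul_le_mul_of_nonneg_right hbig (by positivity)
        _ = (P : ℝ) ^ (ε / 12 + -(ε / 2)) := by rw [← Real.rpow_add hPp]
        _ ≤ _ := Real.rpow_le_rpow_of_exponent_le hP1' (by rw [hc]; linarith only [hκ1, hε])
    have h5 : 0 ≤ 16 ^ n * (P : ℝ) ^ (-(ε / 2)) := by positivity
    linarith only [h2, h3, h4, h5]
  -- conclusion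
  have hmain := tv_n (FS P) hne u K hK hJ1 E hE
  have hset : (FS P).filter (fun r => (fun j => cell (K j) (u j r)) ∈ E) =
      (FS P).filter (fun r : ℚ => (fun j => cell (K j) (m j * (r * x j + y j))) ∈ E) := by
    congr 1
    funext r
    simp only [hu]
  rw [hset] at hmain
  refine hmain.trans ?_
  have hsq : √(∑ k ∈ (SM.box (rad K J)).erase 0,
      ‖(((FS P).card : ℝ)⁻¹) • ∑ r ∈ FS P, Pool.Agent.Y933.KD.e (∑ j, k j * u j r)‖ ^ 2) ≤
        (P : ℝ) ^ (-(2 * c)) := by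
    rw [Real.sqrt_le_left (by positivity)]
    refine htot.trans (le_of_eq ?_)
    rw [← Real.rpow_natCast, ← Real.rpow_mul hPp.le]
    congr 1
    push_cast
    ring
  have h5J : (5 : ℝ) / J ≤ 5 * (P : ℝ) ^ (-(2 * c)) := by
    have : (P : ℝ) ^ (-(2 * c)) = ((P : ℝ) ^ κ)⁻¹ := by
      rw [← Real.rpow_neg hPp.le]
      congr 1
      rw [hc]
      ring
    rw [this, div_eq_mul_inv]
    apply mul_le_mul_of_nonneg_left _ (by norm_num)
    exact inv_anti₀ (by positivity) hJl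
  have hfin : (5 * n + (4 * n + 1)) * (P : ℝ) ^ (-(2 * c)) ≤ (P : ℝ) ^ (-c) := by
    calc (5 * n + (4 * n + 1)) * (P : ℝ) ^ (-(2 * c)) ≤ (P : ℝ) ^ c * (P : ℝ) ^ (-(2 * c)) :=
          mul_le_mul_of_nonneg_right hcn (by positivity)
      _ = (P : ℝ) ^ (-c) := by
          rw [← Real.rpow_add hPp]
          congr 1
          ring
  have h1 : (n : ℝ) * (5 / J) ≤ n * (5 * (P : ℝ) ^ (-(2 * c))) := mul_le_mul_of_nonneg_left h5J hn0
  have h2 := mul_le_mul_of_nonneg_left hsq (by positivity : (0 : ℝ) ≤ 4 * n + 1)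
  linarith only [h1, h2, hfin]

end Pool.Agent.W5h30.RM
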